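import Pool.Agent.X71.MG.Bridge

set_option autoImplicit false
set_option linter.unusedSectionVars false
set_option linter.unusedSimpArgs false

/-! A lower bound for the gonality of a metric graph from a clique. -/

namespace Pool.Agent.X71.MG

theorem crossing_up {F : ℝ → ℝ} (hF : Good F) {c : ℝ} (h0 : F 0 < c) (h1 : c < F 1) :
    ∃ t, 0 < t ∧ t < 1 ∧ F t = c ∧ 0 < R F t := by
  set S : Set ℝ := {y | y ∈ Set.Icc (0:ℝ) 1 ∧ F y ≤ c} with hS
  have hS0 : (0:ℝ) ∈ S := ⟨⟨le_rfl, zero_le_one⟩, h0.le⟩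
  have hbdd : BddAbove S := ⟨1, fun y hy => hy.1.2⟩
  set t := sSup S with ht
  have ht0 : 0 ≤ t := le_csSup hbdd hS0
  have ht1 : t ≤ 1 := csSup_le ⟨0, hS0⟩ fun y hy => hy.1.2
  have hcl : IsClosed S := by
    have := hF.continuousOn.preimage_isClosed_of_isClosed isClosed_Icc (isClosed_Iic (a := c))
    exact this
  have htS : t ∈ S := hcl.csSup_mem ⟨0, hS0⟩ hbdd
  have hgt : ∀ y, t < y → y ≤ 1 → c < F y := by
    intro y hy hy'
    by_contra hn
    push Not at hn
    have := le_csSup hbdd (show y ∈ S from ⟨⟨by linarith, hy'⟩, hn⟩)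
    linarith
  have ht1' : t < 1 := lt_of_le_of_ne ht1 (fun h => by
    have := htS.2
    rw [h] at this
    linarith)
  obtain ⟨ε, he, hn⟩ := (hF.rs ht0 ht1').near
  have hm : 0 < min ε (1 - t) := lt_min he (by linarith)
  have hm1 := min_le_left ε (1 - t)
  have hm2 := min_le_right ε (1 - t)
  have hFt : F t = c := by
    apply le_antisymm htS.2
    by_contra hlt
    push Not at hlt
    -- choose y close to t
    have hd : 0 < (c - F t) / (|(R F t : ℝ)| + 1) := div_pos (by linarith) (by positivity)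
    set y := t + min (min ε (1 - t) / 2) ((c - F t) / (|(R F t : ℝ)| + 1)) with hy
    have hmm : 0 < min (min ε (1 - t) / 2) ((c - F t) / (|(R F t : ℝ)| + 1)) :=
      lt_min (by linarith) hd
    have hmm1 := min_le_left (min ε (1 - t) / 2) ((c - F t) / (|(R F t : ℝ)| + 1))
    have hmm2 := min_le_right (min ε (1 - t) / 2) ((c - F t) / (|(R F t : ℝ)| + 1))
    have e1 := (hn y (by linarith) (by linarith)).1
    have e2 := hgt y (by linarith) (by linarith)
    have e3 : y - t ≤ (c - F t) / (|(R F t : ℝ)| + 1) := by linarith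
    rw [le_div_iff₀ (by positivity)] at e3
    have e4 := le_abs_self (R F t : ℝ)
    nlinarith
  have ht0' : 0 < t := lt_of_le_of_ne ht0 (fun h => by rw [← h] at hFt; linarith)
  refine ⟨t, ht0', ht1', hFt, ?_⟩
  have e1 := (hn (t + min ε (1 - t) / 2) (by linarith) (by linarith)).1
  have e2 := hgt (t + min ε (1 - t) / 2) (by linarith) (by linarith)
  rw [e1, hFt] at e2
  have e3 : 0 < (R F t : ℝ) * (min ε (1 - t) / 2) := by
    have : t + min ε (1 - t) / 2 - t = min ε (1 - t) / 2 := by ring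
    rw [this] at e2
    linarith
  have e4 : 0 < (R F t : ℝ) := by
    by_contra hneg
    push Not at hneg
    nlinarith
  exact_mod_cast e4

theorem R_reflect {F : ℝ → ℝ} (hF : Good F) {t : ℝ} (h0 : 0 ≤ t) (h1 : t < 1) :
    R (fun y => F (1 - y)) t = L F (1 - t) :=
  R_eq (rs_reflect (hF.ls (by linarith) (by linarith)))

theorem L_reflect {F : ℝ → ℝ} (hF : Good F) {t : ℝ} (h0 : 0 < t) (h1 : t ≤ 1) :
    L (fun y => F (1 - y)) t = R F (1 - t) :=
  L_eq (ls_reflect (hF.rs (by linarith) (by linarith)))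

theorem crossing_down {F : ℝ → ℝ} (hF : Good F) {c : ℝ} (h0 : F 1 < c) (h1 : c < F 0) :
    ∃ t, 0 < t ∧ t < 1 ∧ F t = c ∧ 0 < L F t := by
  obtain ⟨t, ht0, ht1, h2, h3⟩ := crossing_up (good_reflect hF) (c := c) (by simpa using h0)
    (by simpa using h1)
  refine ⟨1 - t, by linarith, by linarith, h2, ?_⟩
  rwa [R_reflect hF ht0.le ht1] at h3

/-- a hump needs two chips -/
theorem hump {F : ℝ → ℝ} (hF : Good F) (h : F 0 = F 1) (hR : 0 < R F 0) :
    (∃ a b, 0 < a ∧ a < b ∧ b < 1 ∧ R F a + L F a ≤ -1 ∧ R F b + L F b ≤ -1) ∨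
      ∃ a, 0 < a ∧ a < 1 ∧ R F a + L F a ≤ -2 := by
  obtain ⟨m, hm, hmax⟩ := isCompact_Icc.exists_isMaxOn (Set.nonempty_Icc.2 (zero_le_one (α := ℝ)))
    hF.continuousOn
  have hmax' : ∀ y, 0 ≤ y → y ≤ 1 → F y ≤ F m := fun y h1 h2 => hmax ⟨h1, h2⟩
  -- the maximum is larger than F 0
  have hgt : F 0 < F m := by
    obtain ⟨ε, he, hn⟩ := (hF.rs le_rfl zero_lt_one).near
    have hm : 0 < min ε 1 := lt_min he one_pos
    have hm1 := min_le_left ε 1
    have hm2 := min_le_right ε 1
    have e1 := (hn (min ε 1 / 2) (by linarith) (by linarith)).1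
    have e2 := hmax' (min ε 1 / 2) (by linarith) (by linarith)
    have e3 : (0:ℝ) < R F 0 := by exact_mod_cast hR
    nlinarith
  set S : Set ℝ := {y | y ∈ Set.Icc (0:ℝ) 1 ∧ F m ≤ F y} with hS
  have hmS : m ∈ S := ⟨hm, le_rfl⟩
  have hcl : IsClosed S :=
    hF.continuousOn.preimage_isClosed_of_isClosed isClosed_Icc (isClosed_Ici (a := F m))
  have hbb : BddBelow S := ⟨0, fun y hy => hy.1.1⟩
  have hba : BddAbove S := ⟨1, fun y hy => hy.1.2⟩
  have haS : sInf S ∈ S := hcl.csInf_mem ⟨m, hmS⟩ hbb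
  have hbS : sSup S ∈ S := hcl.csSup_mem ⟨m, hmS⟩ hba
  set a := sInf S
  set b := sSup S
  have hab : a ≤ b := (csInf_le hbb hmS).trans (le_csSup hba hmS)
  have hFa : F a = F m := le_antisymm (hmax' a haS.1.1 haS.1.2) haS.2
  have hFb : F b = F m := le_antisymm (hmax' b hbS.1.1 hbS.1.2) hbS.2
  have ha0 : 0 < a := lt_of_le_of_ne haS.1.1 (fun h' => by rw [← h'] at hFa; linarith)
  have hb1 : b < 1 := lt_of_le_of_ne hbS.1.2 (fun h' => by rw [h', ← h] at hFb; linarith)
  have hLa : L F a < 0 := by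
    obtain ⟨ε, he, hn⟩ := (hF.ls ha0 haS.1.2).near
    have hm : 0 < min ε a := lt_min he ha0
    have hm1 := min_le_left ε a
    have hm2 := min_le_right ε a
    have e1 := (hn (a - min ε a / 2) (by linarith) (by linarith)).1
    have e2 : F (a - min ε a / 2) < F m := by
      by_contra hc
      push Not at hc
      have := csInf_le hbb (show a - min ε a / 2 ∈ S from ⟨⟨by linarith, by linarith [haS.1.2]⟩, hc⟩)
      linarith
    rw [e1, hFa] at e2
    have e4 : (L F a : ℝ) < 0 := by
      by_contra hneg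
      push Not at hneg
      nlinarith
    exact_mod_cast e4
  have hRb : R F b < 0 := by
    obtain ⟨ε, he, hn⟩ := (hF.rs hbS.1.1 hb1).near
    have hm : 0 < min ε (1 - b) := lt_min he (by linarith)
    have hm1 := min_le_left ε (1 - b)
    have hm2 := min_le_right ε (1 - b)
    have e1 := (hn (b + min ε (1 - b) / 2) (by linarith) (by linarith)).1
    have e2 : F (b + min ε (1 - b) / 2) < F m := by
      by_contra hc
      push Not at hc
      have := le_csSup hba (show b + min ε (1 - b) / 2 ∈ S from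
        ⟨⟨by linarith [hbS.1.1], by linarith⟩, hc⟩)
      linarith
    rw [e1, hFb] at e2
    have e4 : (R F b : ℝ) < 0 := by
      by_contra hneg
      push Not at hneg
      nlinarith
    exact_mod_cast e4
  have hRa : R F a ≤ 0 := by
    by_contra hpos
    push Not at hpos
    obtain ⟨ε, he, hn⟩ := (hF.rs ha0.le (lt_of_le_of_lt hab hb1)).near
    have hm : 0 < min ε (1 - a) := lt_min he (by linarith)
    have hm1 := min_le_left ε (1 - a)
    have hm2 := min_le_right ε (1 - a)
    have e1 := (hn (a + min ε (1 - a) / 2) (by linarith) (by linarith)).1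
    have e2 := hmax' (a + min ε (1 - a) / 2) (by linarith) (by linarith)
    rw [e1, hFa] at e2
    have e3 : (0:ℝ) < R F a := by exact_mod_cast hpos
    nlinarith
  have hLb : L F b ≤ 0 := by
    by_contra hpos
    push Not at hpos
    obtain ⟨ε, he, hn⟩ := (hF.ls (lt_of_lt_of_le ha0 hab) hb1.le).near
    have hm : 0 < min ε b := lt_min he (by linarith)
    have hm1 := min_le_left ε b
    have hm2 := min_le_right ε b
    have e1 := (hn (b - min ε b / 2) (by linarith) (by linarith)).1
    have e2 := hmax' (b - min ε b / 2) (by linarith) (by linarith)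
    rw [e1, hFb] at e2
    have e3 : (0:ℝ) < L F b := by exact_mod_cast hpos
    nlinarith
  rcases eq_or_lt_of_le hab with h1 | h1
  · right
    rw [← h1] at hRb
    exact ⟨a, ha0, lt_of_le_of_lt hab hb1, by omega⟩
  · left
    exact ⟨a, b, ha0, h1, hb1, by omega, by omega⟩

theorem hump' {F : ℝ → ℝ} (hF : Good F) (h : F 0 = F 1) (hL : 0 < L F 1) :
    (∃ a b, 0 < a ∧ a < b ∧ b < 1 ∧ R F a + L F a ≤ -1 ∧ R F b + L F b ≤ -1) ∨
      ∃ a, 0 < a ∧ a < 1 ∧ R F a + L F a ≤ -2 := by
  have h1 : 0 < R (fun y => F (1 - y)) 0 := by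
    rw [R_reflect hF le_rfl zero_lt_one, sub_zero]; exact hL
  rcases hump (good_reflect hF) (by simpa using h.symm) h1 with ⟨a, b, ha, hab, hb, h2, h3⟩ |
    ⟨a, ha, hb, h2⟩
  · left
    rw [R_reflect hF ha.le (hab.trans hb), L_reflect hF ha (hab.trans hb).le] at h2
    rw [R_reflect hF (ha.trans hab).le hb, L_reflect hF (ha.trans hab) hb.le] at h3
    exact ⟨1 - b, 1 - a, by linarith, by linarith, by linarith, by linarith, by linarith⟩
  · right
    rw [R_reflect hF ha.le hb, L_reflect hF ha hb.le] at h2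
    exact ⟨1 - a, by linarith, by linarith, by linarith⟩

variable {V E : Type} [Fintype V] [Fintype E] [DecidableEq V] [DecidableEq E]

theorem card_le_mdeg {D : Pt V E →₀ ℤ} (hD : ∀ x, 0 ≤ D x) (X : Finset (Pt V E))
    (hX : ∀ x ∈ X, 1 ≤ D x) : (X.card : ℤ) ≤ mdeg D := by
  have h1 : X ⊆ D.support := fun x hx => Finsupp.mem_support_iff.2 (by have := hX x hx; omega)
  calc (X.card : ℤ) = ∑ x ∈ X, 1 := by simp
    _ ≤ ∑ x ∈ X, D x := Finset.sum_le_sum hX
    _ ≤ ∑ x ∈ D.support, D x := Finset.sum_le_sum_of_subset_of_nonneg h1 fun x _ _ => hD x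

theorem inner_nonneg {D : Pt V E →₀ ℤ} (hD : ∀ x, 0 ≤ D x) (e : E) : 0 ≤ inner D e :=
  Finset.sum_nonneg fun x _ => hD x

theorem inner_one {D : Pt V E →₀ ℤ} (hD : ∀ x, 0 ≤ D x) (e : E) (t : Set.Ioo (0:ℝ) 1) :
    D (Sum.inr (e, t)) ≤ inner D e := by
  by_cases h : D (Sum.inr (e, t)) = 0
  · rw [h]; exact inner_nonneg hD e
  · exact Finset.single_le_sum (f := fun x => D x) (fun x _ => hD x)
      (Finset.mem_filter.2 ⟨Finsupp.mem_support_iff.2 h, rfl⟩)

theorem inner_two {D : Pt V E →₀ ℤ} (hD : ∀ x, 0 ≤ D x) (e : E) {t t' : Set.Ioo (0:ℝ) 1}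
    (hne : t ≠ t') : D (Sum.inr (e, t)) + D (Sum.inr (e, t')) ≤ inner D e := by
  classical
  by_cases h : D (Sum.inr (e, t)) = 0
  · rw [h, zero_add]; exact inner_one hD e t'
  by_cases h' : D (Sum.inr (e, t')) = 0
  · rw [h', add_zero]; exact inner_one hD e t
  have hne' : (Sum.inr (e, t) : Pt V E) ≠ Sum.inr (e, t') := by
    intro h1
    simp only [Sum.inr.injEq, Prod.mk.injEq, true_and] at h1
    exact hne h1
  calc D (Sum.inr (e, t)) + D (Sum.inr (e, t'))
      = ∑ x ∈ ({Sum.inr (e, t), Sum.inr (e, t')} : Finset (Pt V E)), D x :=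
        (Finset.sum_pair hne').symm
    _ ≤ inner D e := by
        apply Finset.sum_le_sum_of_subset_of_nonneg
        · intro x hx
          rw [Finset.mem_insert, Finset.mem_singleton] at hx
          rcases hx with rfl | rfl
          · exact Finset.mem_filter.2 ⟨Finsupp.mem_support_iff.2 h, rfl⟩
          · exact Finset.mem_filter.2 ⟨Finsupp.mem_support_iff.2 h', rfl⟩
        · intro x _ _; exact hD x

/-- **Clique bound.** -/
theorem clique_bound (G : MGraph V E) (K : Finset V) (p : V) (hp : p ∈ K)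
    (h1 : ∀ i ∈ K, ∀ j ∈ K, i ≠ j → ∃ e, (G.src e = i ∧ G.tgt e = j) ∨ (G.src e = j ∧ G.tgt e = i))
    (h2 : ∀ v ∈ K, v ≠ p → ∀ e, (G.src e = v → G.tgt e ∈ K) ∧ (G.tgt e = v → G.src e ∈ K))
    (D : Pt V E →₀ ℤ) (hD : G.MRankGe 1 D) : (K.card : ℤ) - 1 ≤ mdeg D := by
  classical
  by_contra hlt
  push Not at hlt
  have hcov : ∀ x, G.Cov D x := by
    intro x
    rw [cov_iff]
    exact hD (Finsupp.single x 1) (fun y => by
      rw [Finsupp.single_apply]; split_ifs <;> norm_num) (by rw [mdeg_single]; rfl)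
  obtain ⟨D0, hD0, -, hE0⟩ := hcov (Sum.inl p)
  have hdeg0 : mdeg D0 = mdeg D := MEquiv.mdeg G hE0
  -- Step 1
  have step1 : ∀ f : Pt V E → ℝ, G.IsRat f → (∀ x, 0 ≤ D0 x + G.div f x) →
      ∀ i ∈ K, ∀ j ∈ K, ¬ (f (Sum.inl i) < f (Sum.inl j)) := by
    intro f hf hpos i hi j hj hij
    obtain ⟨c, hc, hcv⟩ := (Set.Ioo_infinite hij).exists_notMem_finset
      (Finset.univ.image fun v : V => f (Sum.inl v))
    have hcv' : ∀ v : V, f (Sum.inl v) ≠ c := by
      intro v hv
      exact hcv (Finset.mem_image.2 ⟨v, Finset.mem_univ v, hv⟩)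
    set D1 : Pt V E →₀ ℤ := D0 + G.divF (trunc f c) (isRat_trunc G hf c) with hD1
    have hD1a : ∀ y, D1 y = D0 y + G.div (trunc f c) y := fun y => by
      rw [hD1, Finsupp.add_apply, divF_apply]
    have hD10 : ∀ y, 0 ≤ D1 y := fun y => by
      rw [hD1a]; exact trunc_nonneg G hf c hD0 hpos y
    have hdeg1 : mdeg D1 = mdeg D := by
      rw [hD1, mdeg_add, mdeg_divF, add_zero, hdeg0]
    set S := K.filter (fun v => c < f (Sum.inl v)) with hS
    set T := K.filter (fun v => ¬ c < f (Sum.inl v)) with hT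
    have hST : S.card + T.card = K.card := Finset.card_filter_add_card_filter_not _
    have hSne : 0 < S.card := Finset.card_pos.2 ⟨j, Finset.mem_filter.2 ⟨hj, hc.2⟩⟩
    have hTne : 0 < T.card := Finset.card_pos.2 ⟨i, Finset.mem_filter.2 ⟨hi, not_lt.2 hc.1.le⟩⟩
    -- a chip on every crossing edge
    have hchip : ∀ q : V × V, q ∈ T ×ˢ S → ∃ (e : E) (t : Set.Ioo (0:ℝ) 1),
        ((G.src e = q.1 ∧ G.tgt e = q.2) ∨ (G.src e = q.2 ∧ G.tgt e = q.1)) ∧
          1 ≤ D1 (Sum.inr (e, t)) := by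
      rintro ⟨a, b⟩ hq
      rw [Finset.mem_product] at hq
      obtain ⟨ha, hb⟩ := hq
      simp only at ha hb
      rw [hT, Finset.mem_filter] at ha
      rw [hS, Finset.mem_filter] at hb
      have ha' : f (Sum.inl a) < c := lt_of_le_of_ne (not_lt.1 ha.2) (hcv' a)
      obtain ⟨e, he⟩ := h1 a ha.1 b hb.1 (fun h => by rw [h] at ha'; linarith [hb.2])
      rcases he with he | he
      · obtain ⟨t, ht0, ht1, hFt, hRt⟩ := crossing_up (hf e) (c := c)
          (by rw [G.on_zero, he.1]; exact ha') (by rw [G.on_one, he.2]; exact hb.2)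
        refine ⟨e, ⟨t, ht0, ht1⟩, Or.inl he, ?_⟩
        rw [hD1a, div_trunc_eq_mid G hf (c := c) (by
          rw [← G.on_mid f e ⟨t, ht0, ht1⟩]; exact hFt)]
        have h3 := hD0 (Sum.inr (e, ⟨t, ht0, ht1⟩))
        have h4 := le_max_left (R (G.on f e) t) 0
        have h5 := le_max_right (L (G.on f e) t) 0
        simp only
        linarith
      · obtain ⟨t, ht0, ht1, hFt, hRt⟩ := crossing_down (hf e) (c := c)
          (by rw [G.on_one, he.2]; exact ha') (by rw [G.on_zero, he.1]; exact hb.2)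
        refine ⟨e, ⟨t, ht0, ht1⟩, Or.inr he, ?_⟩
        rw [hD1a, div_trunc_eq_mid G hf (c := c) (by
          rw [← G.on_mid f e ⟨t, ht0, ht1⟩]; exact hFt)]
        have h3 := hD0 (Sum.inr (e, ⟨t, ht0, ht1⟩))
        have h4 := le_max_right (R (G.on f e) t) 0
        have h5 := le_max_left (L (G.on f e) t) 0
        simp only
        linarith
    have : Nonempty E := by
      obtain ⟨e0, -⟩ := h1 i hi j hj (fun h => by rw [h] at hij; exact lt_irrefl _ hij)
      exact ⟨e0⟩
    have : Nonempty (Set.Ioo (0:ℝ) 1) := ⟨⟨1 / 2, by norm_num, by norm_num⟩⟩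
    choose! ee tt hee using hchip
    have hinj : Set.InjOn (fun q : V × V => (Sum.inr (ee q, tt q) : Pt V E))
        ((T ×ˢ S : Finset (V × V)) : Set (V × V)) := by
      intro q hq q' hq' heq
      simp only [Sum.inr.injEq, Prod.mk.injEq] at heq
      have e1 := (hee q hq).1
      have e2 := (hee q' hq').1
      rw [← heq.1] at e2
      have m1 := Finset.mem_product.1 (Finset.mem_coe.1 hq)
      have m2 := Finset.mem_product.1 (Finset.mem_coe.1 hq')
      have nT : ∀ v, v ∈ T → v ∉ S := fun v hv hv' =>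
        (Finset.mem_filter.1 hv).2 (Finset.mem_filter.1 hv').2
      rcases e1 with e1 | e1 <;> rcases e2 with e2 | e2
      · exact Prod.ext (e1.1.symm.trans e2.1) (e1.2.symm.trans e2.2)
      · exfalso
        have : q.1 = q'.2 := e1.1.symm.trans e2.1
        exact nT _ m1.1 (this ▸ m2.2)
      · exfalso
        have : q.2 = q'.1 := e1.1.symm.trans e2.1
        exact nT _ m2.1 (this ▸ m1.2)
      · exact Prod.ext (e1.2.symm.trans e2.2) (e1.1.symm.trans e2.1)
    have hcard := card_le_mdeg hD10 ((T ×ˢ S).image fun q => (Sum.inr (ee q, tt q) : Pt V E)) (by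
      intro x hx
      obtain ⟨q, hq, rfl⟩ := Finset.mem_image.1 hx
      exact (hee q hq).2)
    rw [Finset.card_image_of_injOn hinj, Finset.card_product, hdeg1] at hcard
    have h3 : (S.card + T.card : ℤ) = K.card := by exact_mod_cast hST
    push_cast at hcard
    have h4 : (1:ℤ) ≤ S.card := by exact_mod_cast hSne
    have h5 : (1:ℤ) ≤ T.card := by exact_mod_cast hTne
    nlinarith
  -- Step 2
  have step2 : ∀ v ∈ K, v ≠ p → 2 ≤ 2 * D0 (Sum.inl v) +
      ∑ e : E, ((if G.src e = v then inner D0 e else 0) + (if G.tgt e = v then inner D0 e else 0)) := by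
    intro v hv hvp
    have hterm : ∀ e : E, 0 ≤ (if G.src e = v then inner D0 e else 0) +
        (if G.tgt e = v then inner D0 e else 0) := by
      intro e
      have := inner_nonneg hD0 e
      split_ifs <;> omega
    by_cases hv0 : 1 ≤ D0 (Sum.inl v)
    · have := Finset.sum_nonneg fun (e : E) (_ : e ∈ Finset.univ) => hterm e
      linarith
    have hv0' : D0 (Sum.inl v) = 0 := by
      have := hD0 (Sum.inl v)
      omega
    obtain ⟨Dv, hDv, hv1, hEv⟩ := hcov (Sum.inl v)
    obtain ⟨f, hf, hfv⟩ := MEquiv.trans G (MEquiv.symm G hE0) hEv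
    have hpos : ∀ y, 0 ≤ D0 y + G.div f y := fun y => by rw [← hfv y]; exact hDv y
    have hconst : ∀ i ∈ K, ∀ j ∈ K, f (Sum.inl i) = f (Sum.inl j) := fun i hi j hj =>
      le_antisymm (not_lt.1 (step1 f hf hpos j hj i hi)) (not_lt.1 (step1 f hf hpos i hi j hj))
    have hdivv : 1 ≤ G.div f (Sum.inl v) := by
      have := hfv (Sum.inl v)
      rw [hv0'] at this
      linarith
    obtain ⟨e, he⟩ : ∃ e : E, 1 ≤ ((if G.src e = v then R (G.on f e) 0 else 0) +
        (if G.tgt e = v then L (G.on f e) 1 else 0)) := by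
      by_contra hn
      push Not at hn
      have : G.div f (Sum.inl v) ≤ 0 :=
        Finset.sum_nonpos fun e _ => by have := hn e; omega
      omega
    have hinner : 2 ≤ inner D0 e ∧ (G.src e = v ∨ G.tgt e = v) := by
      have hh : ((∃ a b, 0 < a ∧ a < b ∧ b < 1 ∧ R (G.on f e) a + L (G.on f e) a ≤ -1 ∧
          R (G.on f e) b + L (G.on f e) b ≤ -1) ∨
            ∃ a, 0 < a ∧ a < 1 ∧ R (G.on f e) a + L (G.on f e) a ≤ -2) ∧
              (G.src e = v ∨ G.tgt e = v) := by
        by_cases hs : G.src e = v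
        · have ht : G.tgt e ≠ v := fun ht => G.ne e (hs.trans ht.symm)
          rw [if_pos hs, if_neg ht, add_zero] at he
          refine ⟨hump (hf e) ?_ (by omega), Or.inl hs⟩
          rw [G.on_zero, G.on_one]
          exact hconst _ (by rw [hs]; exact hv) _ ((h2 v hv hvp e).1 hs)
        · by_cases ht : G.tgt e = v
          · rw [if_neg hs, if_pos ht, zero_add] at he
            refine ⟨hump' (hf e) ?_ (by omega), Or.inr ht⟩
            rw [G.on_zero, G.on_one]
            exact hconst _ ((h2 v hv hvp e).2 ht) _ (by rw [ht]; exact hv)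
          · rw [if_neg hs, if_neg ht] at he
            omega
      refine ⟨?_, hh.2⟩
      rcases hh.1 with ⟨a, b, ha, hab, hb, ha', hb'⟩ | ⟨a, ha, hb, ha'⟩
      · have p1 := hpos (Sum.inr (e, ⟨a, ha, hab.trans hb⟩))
        have p2 := hpos (Sum.inr (e, ⟨b, ha.trans hab, hb⟩))
        have q1 : G.div f (Sum.inr (e, ⟨a, ha, hab.trans hb⟩)) = R (G.on f e) a + L (G.on f e) a :=
          rfl
        have q2 : G.div f (Sum.inr (e, ⟨b, ha.trans hab, hb⟩)) = R (G.on f e) b + L (G.on f e) b :=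
          rfl
        have := inner_two hD0 e (t := ⟨a, ha, hab.trans hb⟩) (t' := ⟨b, ha.trans hab, hb⟩)
          (fun h => by
            have := congrArg Subtype.val h
            simp only at this
            linarith)
        linarith
      · have p1 := hpos (Sum.inr (e, ⟨a, ha, hb⟩))
        have q1 : G.div f (Sum.inr (e, ⟨a, ha, hb⟩)) = R (G.on f e) a + L (G.on f e) a := rfl
        have := inner_one hD0 e ⟨a, ha, hb⟩
        linarith
    have hle := Finset.single_le_sum (fun (e : E) _ => hterm e) (Finset.mem_univ e)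
    have hge : 2 ≤ (if G.src e = v then inner D0 e else 0) +
        (if G.tgt e = v then inner D0 e else 0) := by
      rcases hinner.2 with h | h
      · have ht : G.tgt e ≠ v := fun ht => G.ne e (h.trans ht.symm)
        rw [if_pos h, if_neg ht]; linarith [hinner.1]
      · have hs : G.src e ≠ v := fun hs => G.ne e (hs.trans h.symm)
        rw [if_neg hs, if_pos h]; linarith [hinner.1]
    have := hD0 (Sum.inl v)
    linarith
  -- Step 3
  have hsum := Finset.sum_le_sum (s := K.erase p) (f := fun _ => (2:ℤ)) (fun v hv =>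
    step2 v (Finset.mem_of_mem_erase hv) (Finset.ne_of_mem_erase hv))
  rw [Finset.sum_const, Finset.card_erase_of_mem hp, Finset.sum_add_distrib, ← Finset.mul_sum,
    Finset.sum_comm] at hsum
  have b1 : ∑ v ∈ K.erase p, D0 (Sum.inl v) ≤ ∑ v, D0 (Sum.inl v) :=
    Finset.sum_le_sum_of_subset_of_nonneg (Finset.subset_univ _) fun v _ _ => hD0 _
  have b2 : ∑ e : E, ∑ v ∈ K.erase p, ((if G.src e = v then inner D0 e else 0) +
      (if G.tgt e = v then inner D0 e else 0)) ≤ ∑ e : E, 2 * inner D0 e := by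
    apply Finset.sum_le_sum
    intro e _
    rw [Finset.sum_add_distrib, Finset.sum_ite_eq, Finset.sum_ite_eq]
    have := inner_nonneg hD0 e
    split_ifs <;> linarith
  rw [← Finset.mul_sum] at b2
  have hm := mdeg_eq D0
  have hK : (1:ℕ) ≤ K.card := Finset.card_pos.2 ⟨p, hp⟩
  have hk : ((K.card - 1 : ℕ) : ℤ) = K.card - 1 := by push_cast [hK]; ring
  rw [nsmul_eq_mul, hk] at hsum
  linarith

end Pool.Agent.X71.MG
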