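import Pool.Agent.X71.MG.Convex

set_option autoImplicit false
set_option linter.unusedSectionVars false
set_option linter.unusedSimpArgs false

/-! Ranks on a graph and on its metric graph. -/

namespace Pool.Agent.X71.MG

variable {V E : Type} [Fintype V] [Fintype E] [DecidableEq V] [DecidableEq E]

/-- The Laplacian: `(L f)(v)` is the sum over all edges at `v` of `f v` minus the value of `f` at the
other end of the edge. -/
def MGraph.lap (G : MGraph V E) (f : V → ℤ) (v : V) : ℤ :=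
  ∑ e : E, ((if G.src e = v then f v - f (G.tgt e) else 0) +
    (if G.tgt e = v then f v - f (G.src e) else 0))

/-- Linear equivalence of divisors on the graph. -/
def MGraph.DEquiv (G : MGraph V E) (D D' : V → ℤ) : Prop :=
  ∃ f : V → ℤ, ∀ v, D' v = D v - G.lap f v

/-- `D` has rank at least `r` on the graph. -/
def MGraph.RankGe (G : MGraph V E) (r : ℕ) (D : V → ℤ) : Prop :=
  ∀ A : V → ℤ, (∀ v, 0 ≤ A v) → ∑ v, A v = (r : ℤ) →
    ∃ D' : V → ℤ, (∀ v, 0 ≤ D' v) ∧ G.DEquiv (fun v => D v - A v) D'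

/-- The `r`-th divisorial gonality of the graph. -/
noncomputable def MGraph.dgon (G : MGraph V E) (r : ℕ) : ℕ :=
  sInf {d : ℕ | ∃ D : V → ℤ, ∑ v, D v = (d : ℤ) ∧ G.RankGe r D}

/-- `D` has rank at least `r` on the metric graph. -/
def MGraph.MRankGe (G : MGraph V E) (r : ℕ) (D : Pt V E →₀ ℤ) : Prop :=
  ∀ A : Pt V E →₀ ℤ, (∀ x, 0 ≤ A x) → mdeg A = (r : ℤ) →
    ∃ D' : Pt V E →₀ ℤ, (∀ x, 0 ≤ D' x) ∧ G.MEquiv (D - A) D'

/-- The `r`-th divisorial gonality of the metric graph. -/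
noncomputable def MGraph.mdgon (G : MGraph V E) (r : ℕ) : ℕ :=
  sInf {d : ℕ | ∃ D : Pt V E →₀ ℤ, mdeg D = (d : ℤ) ∧ G.MRankGe r D}

/-! effective divisors of small degree -/

theorem mdeg_single (x : Pt V E) (n : ℤ) : mdeg (Finsupp.single x n) = n := by
  unfold mdeg
  exact Finsupp.sum_single_index rfl

theorem mdeg_sub (D D' : Pt V E →₀ ℤ) : mdeg (D - D') = mdeg D - mdeg D' := by
  have := mdeg_add (D - D') D'
  rw [sub_add_cancel] at this
  linarith

theorem mdeg_nonneg {D : Pt V E →₀ ℤ} (h : ∀ x, 0 ≤ D x) : 0 ≤ mdeg D :=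
  Finset.sum_nonneg fun x _ => h x

theorem eff_pos {A : Pt V E →₀ ℤ} (h : 0 < mdeg A) : ∃ x, 1 ≤ A x := by
  by_contra hn
  push Not at hn
  have : mdeg A ≤ 0 := Finset.sum_nonpos fun x _ => by have := hn x; linarith
  linarith

theorem eff_zero {A : Pt V E →₀ ℤ} (hA : ∀ x, 0 ≤ A x) (h : mdeg A = 0) : A = 0 := by
  ext x
  by_contra hx
  have h1 : 1 ≤ A x := by
    have := hA x
    rw [Finsupp.coe_zero, Pi.zero_apply] at hx
    omega
  have h2 : A x ≤ mdeg A := by
    unfold mdeg Finsupp.sum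
    exact Finset.single_le_sum (f := fun y => A y) (fun y _ => hA y)
      (Finsupp.mem_support_iff.2 (by omega))
  omega

theorem eff_sub {A : Pt V E →₀ ℤ} (hA : ∀ x, 0 ≤ A x) {x : Pt V E} (hx : 1 ≤ A x) (y : Pt V E) :
    0 ≤ (A - Finsupp.single x 1 : Pt V E →₀ ℤ) y := by
  classical
  rw [Finsupp.sub_apply, Finsupp.single_apply]
  split_ifs with h
  · rw [← h]; linarith
  · have := hA y; linarith

theorem eff_one {A : Pt V E →₀ ℤ} (hA : ∀ x, 0 ≤ A x) (h : mdeg A = 1) :
    ∃ x, A = Finsupp.single x 1 := by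
  obtain ⟨x, hx⟩ := eff_pos (A := A) (by omega)
  refine ⟨x, ?_⟩
  have := eff_zero (eff_sub hA hx) (by rw [mdeg_sub, mdeg_single, h]; rfl)
  exact sub_eq_zero.1 this

theorem eff_two {A : Pt V E →₀ ℤ} (hA : ∀ x, 0 ≤ A x) (h : mdeg A = 2) :
    ∃ x y, A = Finsupp.single x 1 + Finsupp.single y 1 := by
  obtain ⟨x, hx⟩ := eff_pos (A := A) (by omega)
  obtain ⟨y, hy⟩ := eff_one (eff_sub hA hx) (by rw [mdeg_sub, mdeg_single, h]; rfl)
  exact ⟨x, y, by rw [← hy]; abel⟩

theorem cov_iff (G : MGraph V E) (F : Pt V E →₀ ℤ) (x : Pt V E) :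
    G.Cov F x ↔ ∃ D : Pt V E →₀ ℤ, (∀ y, 0 ≤ D y) ∧ G.MEquiv (F - Finsupp.single x 1) D := by
  classical
  constructor
  · rintro ⟨D, hD, hx, h⟩
    exact ⟨D - Finsupp.single x 1, eff_sub hD hx, MEquiv.sub_right G h _⟩
  · rintro ⟨D, hD, h⟩
    refine ⟨D + Finsupp.single x 1, fun y => ?_, ?_, ?_⟩
    · rw [Finsupp.add_apply, Finsupp.single_apply]
      have := hD y
      split_ifs <;> omega
    · rw [Finsupp.add_apply, Finsupp.single_eq_same]
      have := hD x
      omega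
    · have := MEquiv.add_right G h (Finsupp.single x 1)
      rwa [sub_add_cancel] at this

/-- the vertices form a rank-determining set (rank one) -/
theorem cov_all (G : MGraph V E) (F : Pt V E →₀ ℤ) (h : ∀ v : V, G.Cov F (Sum.inl v)) (x : Pt V E) :
    G.Cov F x := by
  rcases x with v | ⟨e, t⟩
  · exact h v
  · exact cov_edge G F e (h _) (h _) t

theorem mrank_one (G : MGraph V E) (F : Pt V E →₀ ℤ) (h : ∀ v : V, G.Cov F (Sum.inl v)) :
    G.MRankGe 1 F := by
  intro A hA hdeg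
  obtain ⟨x, rfl⟩ := eff_one hA (by simpa using hdeg)
  exact (cov_iff G F x).1 (cov_all G F h x)

theorem mrank_two (G : MGraph V E) (F : Pt V E →₀ ℤ)
    (h : ∀ u v : V, G.Cov (F - Finsupp.single (Sum.inl u) 1) (Sum.inl v)) :
    G.MRankGe 2 F := by
  intro A hA hdeg
  obtain ⟨x, y, rfl⟩ := eff_two hA (by simpa using hdeg)
  have h1 : ∀ (u : V) (z : Pt V E), G.Cov (F - Finsupp.single z 1) (Sum.inl u) := by
    intro u z
    have := cov_all G _ (h u) z
    rw [cov_iff] at this ⊢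
    obtain ⟨D, hD, hE⟩ := this
    exact ⟨D, hD, by rwa [sub_right_comm] at hE⟩
  have h2 := cov_all G _ (fun u => h1 u x) y
  rw [cov_iff] at h2
  obtain ⟨D, hD, hE⟩ := h2
  exact ⟨D, hD, by rwa [sub_sub] at hE⟩

/-! half-integral functions and divisors -/

theorem Germ.smul {g : ℝ → ℝ} {m : ℤ} (hg : Germ g m) (c : ℤ) : Germ (fun s => c * g s) (c * m) := by
  obtain ⟨ε, he, h1⟩ := hg
  refine ⟨ε, he, fun s hs hs' => ?_⟩
  beta_reduce
  rw [h1 s hs hs']
  push_cast
  ring

/-- the function with values `φV / 2` at the vertices and `φE / 2` at the midpoints, linear between -/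
noncomputable def MGraph.interp (G : MGraph V E) (φV : V → ℤ) (φE : E → ℤ) : Pt V E → ℝ
  | Sum.inl v => (φV v : ℝ) / 2
  | Sum.inr (e, t) => (φV (G.src e) : ℝ) / 2 + ((φE e - φV (G.src e) : ℤ) : ℝ) * t +
      ((φV (G.tgt e) - 2 * φE e + φV (G.src e) : ℤ) : ℝ) * max ((t : ℝ) - 1 / 2) 0

/-- the same function on a segment -/
noncomputable def seg (a b c : ℤ) (t : ℝ) : ℝ :=
  (a : ℝ) / 2 + ((b - a : ℤ) : ℝ) * t + ((c - 2 * b + a : ℤ) : ℝ) * max (t - 1 / 2) 0

theorem seg_rs (a b c : ℤ) (t : ℝ) :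
    RS (seg a b c) t ((b - a) + (c - 2 * b + a) * (if 1 / 2 ≤ t then 1 else 0)) := by
  refine Germ.add (g := fun s => (a : ℝ) / 2 + ((b - a : ℤ) : ℝ) * (t + s)) ⟨1, one_pos, ?_⟩
    ((germ_hinge_right (1 / 2) t).smul (c - 2 * b + a))
  intro s _ _
  simp only
  ring

theorem seg_ls (a b c : ℤ) (t : ℝ) :
    LS (seg a b c) t (-(b - a) + (c - 2 * b + a) * (if 1 / 2 < t then -1 else 0)) := by
  refine Germ.add (g := fun s => (a : ℝ) / 2 + ((b - a : ℤ) : ℝ) * (t - s)) ⟨1, one_pos, ?_⟩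
    ((germ_hinge_left (1 / 2) t).smul (c - 2 * b + a))
  intro s _ _
  simp only
  push_cast
  ring

theorem on_interp (G : MGraph V E) (φV : V → ℤ) (φE : E → ℤ) (e : E) {t : ℝ} (h0 : 0 ≤ t)
    (h1 : t ≤ 1) : G.on (G.interp φV φE) e t = seg (φV (G.src e)) (φE e) (φV (G.tgt e)) t := by
  rcases eq_or_lt_of_le h0 with h | h
  · subst h
    rw [G.on_zero]
    unfold MGraph.interp seg
    rw [max_eq_right (by norm_num)]
    simp
  · rcases eq_or_lt_of_le h1 with h' | h'
    · subst h'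
      rw [G.on_one]
      unfold MGraph.interp seg
      rw [max_eq_left (by norm_num)]
      push_cast
      ring
    · have : G.on (G.interp φV φE) e ((⟨t, h, h'⟩ : Set.Ioo (0:ℝ) 1) : ℝ) = _ :=
        G.on_mid (G.interp φV φE) e ⟨t, h, h'⟩
      rw [this]
      rfl

theorem isRat_interp (G : MGraph V E) (φV : V → ℤ) (φE : E → ℤ) : G.IsRat (G.interp φV φE) :=
  fun e => ⟨fun t h0 h1 => ⟨_, (seg_rs _ _ _ t).congr_le h0 h1 fun _ hy hy' =>
      on_interp G φV φE e hy hy'⟩,
    fun t h0 h1 => ⟨_, (seg_ls _ _ _ t).congr_le h0 h1 fun _ hy hy' =>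
      on_interp G φV φE e hy hy'⟩⟩

theorem div_interp_inl (G : MGraph V E) (φV : V → ℤ) (φE : E → ℤ) (v : V) :
    G.div (G.interp φV φE) (Sum.inl v) = ∑ e : E, ((if G.src e = v then φE e - φV v else 0) +
      (if G.tgt e = v then φE e - φV v else 0)) := by
  simp only [MGraph.div]
  apply Finset.sum_congr rfl
  intro e _
  have h1 : R (G.on (G.interp φV φE) e) 0 = _ :=
    R_eq ((seg_rs _ _ _ 0).congr_le le_rfl zero_lt_one fun _ hy hy' => on_interp G φV φE e hy hy')
  have h2 : L (G.on (G.interp φV φE) e) 1 = _ :=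
    L_eq ((seg_ls _ _ _ 1).congr_le zero_lt_one le_rfl fun _ hy hy' => on_interp G φV φE e hy hy')
  rw [h1, h2, if_neg (show ¬ ((1:ℝ) / 2 ≤ 0) by norm_num),
    if_pos (show ((1:ℝ) / 2 < 1) by norm_num)]
  congr 1
  · split_ifs with h
    · rw [← h]; ring
    · rfl
  · split_ifs with h
    · rw [← h]; ring
    · rfl

theorem div_interp_inr (G : MGraph V E) (φV : V → ℤ) (φE : E → ℤ) (e : E) (t : Set.Ioo (0:ℝ) 1) :
    G.div (G.interp φV φE) (Sum.inr (e, t)) =
      if (t : ℝ) = 1 / 2 then φV (G.src e) + φV (G.tgt e) - 2 * φE e else 0 := by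
  simp only [MGraph.div]
  have h1 : R (G.on (G.interp φV φE) e) t = _ :=
    R_eq ((seg_rs _ _ _ t).congr_le t.2.1.le t.2.2 fun _ hy hy' => on_interp G φV φE e hy hy')
  have h2 : L (G.on (G.interp φV φE) e) t = _ :=
    L_eq ((seg_ls _ _ _ t).congr_le t.2.1 t.2.2.le fun _ hy hy' => on_interp G φV φE e hy hy')
  rw [h1, h2]
  rcases lt_trichotomy (t:ℝ) (1 / 2) with h | h | h
  · rw [if_neg (not_le.2 h), if_neg (not_lt.2 h.le), if_neg h.ne]; ring
  · rw [if_pos h.ge, if_neg (not_lt.2 h.le), if_pos h]; ring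
  · rw [if_pos h.le, if_pos h, if_neg h.ne']; ring

/-- underlying function of a half-integral divisor -/
noncomputable def hdFun {V E : Type} (Dv : V → ℤ) (De : E → ℤ) : Pt V E → ℤ
  | Sum.inl v => Dv v
  | Sum.inr (e, t) => if (t : ℝ) = 1 / 2 then De e else 0

/-- one half -/
noncomputable def hp : Set.Ioo (0:ℝ) 1 := ⟨1 / 2, by norm_num, by norm_num⟩

theorem hp_val : (hp : ℝ) = 1 / 2 := rfl

theorem hdFun_finite (Dv : V → ℤ) (De : E → ℤ) : (Function.support (hdFun Dv De)).Finite := by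
  classical
  apply Set.Finite.subset (s := (Set.range (Sum.inl : V → Pt V E)) ∪
    Set.range (fun e : E => (Sum.inr (e, hp) : Pt V E)))
    ((Set.finite_range _).union (Set.finite_range _))
  intro x hx
  rcases x with v | ⟨e, t⟩
  · exact Or.inl ⟨v, rfl⟩
  · right
    refine ⟨e, ?_⟩
    simp only [Function.mem_support, hdFun] at hx
    by_cases h : (t:ℝ) = 1 / 2
    · have : hp = t := Subtype.ext h.symm
      rw [this]
    · rw [if_neg h] at hx
      exact absurd rfl hx

/-- the divisor with `Dv v` chips at the vertex `v` and `De e` chips at the midpoint of `e` -/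
noncomputable def hd (Dv : V → ℤ) (De : E → ℤ) : Pt V E →₀ ℤ :=
  Finsupp.ofSupportFinite (hdFun Dv De) (hdFun_finite Dv De)

theorem hd_inl (Dv : V → ℤ) (De : E → ℤ) (v : V) : hd Dv De (Sum.inl v) = Dv v := rfl

theorem hd_inr (Dv : V → ℤ) (De : E → ℤ) (e : E) (t : Set.Ioo (0:ℝ) 1) :
    hd Dv De (Sum.inr (e, t)) = if (t : ℝ) = 1 / 2 then De e else 0 := rfl

theorem hd_nonneg {Dv : V → ℤ} {De : E → ℤ} (hv : ∀ v, 0 ≤ Dv v) (he : ∀ e, 0 ≤ De e)
    (x : Pt V E) : 0 ≤ hd Dv De x := by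
  rcases x with v | ⟨e, t⟩
  · exact hv v
  · rw [hd_inr]; split_ifs
    · exact he e
    · exact le_rfl

theorem mdeg_hd (Dv : V → ℤ) (De : E → ℤ) : mdeg (hd Dv De) = ∑ v, Dv v + ∑ e, De e := by
  classical
  rw [mdeg_eq]
  congr 1
  apply Finset.sum_congr rfl
  intro e _
  unfold inner
  by_cases h : De e = 0
  · rw [h]
    apply Finset.sum_eq_zero
    intro x hx
    rw [Finset.mem_filter] at hx
    rcases x with v | ⟨e', t⟩
    · simp [cls] at hx
    · simp only [cls, Sum.inr.injEq] at hx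
      rw [hd_inr, hx.2, h]
      simp
  · rw [Finset.sum_eq_single (Sum.inr (e, hp))]
    · rw [hd_inr, if_pos hp_val]
    · intro x hx hne
      rw [Finset.mem_filter] at hx
      rcases x with v | ⟨e', t⟩
      · simp [cls] at hx
      · simp only [cls, Sum.inr.injEq] at hx
        rw [hd_inr]
        by_cases ht : (t:ℝ) = 1 / 2
        · exfalso
          apply hne
          have : t = hp := Subtype.ext ht
          rw [hx.2, this]
        · rw [if_neg ht]
    · intro hn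
      exfalso
      apply hn
      rw [Finset.mem_filter, Finsupp.mem_support_iff, hd_inr, if_pos hp_val]
      exact ⟨h, rfl⟩

/-- discrete certificates for equivalences between half-integral divisors -/
theorem hd_equiv (G : MGraph V E) {Dv Dv' : V → ℤ} {De De' : E → ℤ} (φV : V → ℤ) (φE : E → ℤ)
    (hv : ∀ v, Dv' v = Dv v + ∑ e : E, ((if G.src e = v then φE e - φV v else 0) +
      (if G.tgt e = v then φE e - φV v else 0)))
    (he : ∀ e, De' e = De e + (φV (G.src e) + φV (G.tgt e) - 2 * φE e)) :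
    G.MEquiv (hd Dv De) (hd Dv' De') := by
  refine ⟨G.interp φV φE, isRat_interp G φV φE, fun x => ?_⟩
  rcases x with v | ⟨e, t⟩
  · rw [div_interp_inl, hd_inl, hd_inl, hv]
  · rw [div_interp_inr, hd_inr, hd_inr]
    split_ifs
    · exact he e
    · rfl

theorem hd_equiv_int (G : MGraph V E) {D D' : V → ℤ} (h : G.DEquiv D D') :
    G.MEquiv (hd D 0) (hd D' 0) := by
  obtain ⟨f, hf⟩ := h
  apply hd_equiv G (fun v => 2 * f v) (fun e => f (G.src e) + f (G.tgt e))
  · intro v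
    rw [hf v, sub_eq_add_neg]
    congr 1
    unfold MGraph.lap
    rw [← Finset.sum_neg_distrib]
    apply Finset.sum_congr rfl
    intro e _
    split_ifs with h1 h2 h2
    · exact absurd (h1.trans h2.symm) (G.ne e)
    · rw [h1]; ring
    · rw [h2]; ring
    · ring
  · intro e
    simp only [Pi.zero_apply]
    ring

theorem rank_one_metric (G : MGraph V E) {D : V → ℤ} (h : G.RankGe 1 D) :
    G.MRankGe 1 (hd D 0) := by
  classical
  apply mrank_one
  intro v
  obtain ⟨D', hD', hE⟩ := h (fun w => if w = v then 1 else 0) (fun w => by split_ifs <;> norm_num)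
    (by simp)
  rw [cov_iff]
  refine ⟨hd D' 0, hd_nonneg hD' (fun _ => le_rfl), ?_⟩
  have h1 := hd_equiv_int G hE
  have h2 : hd (fun w => D w - if w = v then 1 else 0) 0 =
      (hd D 0 - Finsupp.single (Sum.inl v) 1 : Pt V E →₀ ℤ) := by
    ext x
    rw [Finsupp.sub_apply, Finsupp.single_apply]
    rcases x with w | ⟨e, t⟩
    · rw [hd_inl, hd_inl]
      simp only [Sum.inl.injEq]
      congr 1
      by_cases hw : w = v
      · rw [if_pos hw, if_pos hw.symm]
      · rw [if_neg hw, if_neg (Ne.symm hw)]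
    · rw [hd_inr, hd_inr]
      simp
  rwa [h2] at h1

end Pool.Agent.X71.MG
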