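import Pool.Agent.X71.MG.Metric

set_option autoImplicit false
set_option linter.unusedSectionVars false
set_option linter.unusedSimpArgs false

/-! Rank-determining sets and explicit equivalences. -/

namespace Pool.Agent.X71.MG

theorem flat_left {F : ℝ → ℝ} (hF : Good F) {t0 : ℝ} (h0 : 0 < t0) (h1 : t0 < 1)
    (hL : L F t0 = 0) : ∃ a, 0 ≤ a ∧ a < t0 ∧ (∀ y, a ≤ y → y ≤ t0 → F y = F t0) ∧
      (a = 0 ∨ L F a ≠ 0) ∧ R F a = 0 := by
  set S : Set ℝ := {s | 0 ≤ s ∧ s ≤ t0 ∧ ∀ y, s ≤ y → y ≤ t0 → F y = F t0} with hS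
  have ht0 : t0 ∈ S := ⟨h0.le, le_rfl, fun y hy hy' => by rw [le_antisymm hy' hy]⟩
  have hbdd : BddBelow S := ⟨0, fun s hs => hs.1⟩
  set a := sInf S with ha
  have ha0 : 0 ≤ a := le_csInf ⟨t0, ht0⟩ fun s hs => hs.1
  have hgt : ∀ y, a < y → y ≤ t0 → F y = F t0 := by
    intro y hy hy'
    obtain ⟨s, hs, hsy⟩ := exists_lt_of_csInf_lt ⟨t0, ht0⟩ hy
    exact hs.2.2 y hsy.le hy'
  have hat : a < t0 := by
    obtain ⟨ε, he, hn⟩ := (hF.ls h0 h1.le).near
    have hmem : max 0 (t0 - ε / 2) ∈ S := by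
      refine ⟨le_max_left _ _, max_le h0.le (by linarith), fun y hy hy' => ?_⟩
      rcases eq_or_lt_of_le hy' with h | h
      · rw [h]
      · have := (hn y (by have := le_max_right 0 (t0 - ε / 2); linarith) h).1
        rw [this, hL]
        simp
    exact lt_of_le_of_lt (csInf_le hbdd hmem) (max_lt h0 (by linarith))
  have hFa : F a = F t0 := by
    obtain ⟨ε, he, hn⟩ := (hF.rs ha0 (hat.trans h1)).near
    have hm : 0 < min ε (t0 - a) := lt_min he (by linarith)
    have hm1 := min_le_left ε (t0 - a)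
    have hm2 := min_le_right ε (t0 - a)
    have e1 := (hn (a + min ε (t0 - a) / 2) (by linarith) (by linarith)).1
    have e2 := (hn (a + min ε (t0 - a) / 4) (by linarith) (by linarith)).1
    rw [hgt _ (by linarith) (by linarith)] at e1 e2
    have e3 : (R F a : ℝ) * min ε (t0 - a) = 0 := by nlinarith
    rcases mul_eq_zero.1 e3 with h | h
    · rw [h] at e1; linarith
    · exact absurd h hm.ne'
  refine ⟨a, ha0, hat, fun y hy hy' => ?_, ?_, ?_⟩
  · rcases eq_or_lt_of_le hy with h | h
    · rw [← h, hFa]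
    · exact hgt y h hy'
  · rcases eq_or_lt_of_le ha0 with h | h
    · exact Or.inl h.symm
    · right
      intro hLa
      obtain ⟨ε, he, hn⟩ := (hF.ls h (hat.trans h1).le).near
      have hmem : max 0 (a - ε / 2) ∈ S := by
        refine ⟨le_max_left _ _, max_le h0.le (by linarith), fun y hy hy' => ?_⟩
        rcases lt_trichotomy y a with h' | h' | h'
        · have := (hn y (by have := le_max_right 0 (a - ε / 2); linarith) h').1
          rw [this, hLa, hFa]
          simp
        · rw [h', hFa]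
        · exact hgt y h' hy'
      have h2 := csInf_le hbdd hmem
      have h3 : max 0 (a - ε / 2) < a := max_lt h (by linarith)
      linarith
  · apply R_eq
    refine ⟨t0 - a, by linarith, fun s hs hs' => ?_⟩
    simp only [add_zero, Int.cast_zero, zero_mul]
    rw [hFa]
    rcases eq_or_lt_of_le hs with h | h
    · rw [← h, add_zero, hFa]
    · exact hgt _ (by linarith) (by linarith)

theorem rs_reflect {F : ℝ → ℝ} {t : ℝ} {m : ℤ} (h : LS F (1 - t) m) :
    RS (fun y => F (1 - y)) t m := by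
  have : (fun s => F (1 - (t + s))) = fun s => F (1 - t - s) := by
    funext s; ring_nf
  unfold RS
  rw [this]
  exact h

theorem ls_reflect {F : ℝ → ℝ} {t : ℝ} {m : ℤ} (h : RS F (1 - t) m) :
    LS (fun y => F (1 - y)) t m := by
  have : (fun s => F (1 - (t - s))) = fun s => F (1 - t + s) := by
    funext s; ring_nf
  unfold LS
  rw [this]
  exact h

theorem good_reflect {F : ℝ → ℝ} (hF : Good F) : Good (fun y => F (1 - y)) :=
  ⟨fun t h0 h1 => ⟨_, rs_reflect (hF.ls (t := 1 - t) (by linarith) (by linarith))⟩,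
    fun t h0 h1 => ⟨_, ls_reflect (hF.rs (t := 1 - t) (by linarith) (by linarith))⟩⟩

theorem flat_right {F : ℝ → ℝ} (hF : Good F) {t0 : ℝ} (h0 : 0 < t0) (h1 : t0 < 1)
    (hR : R F t0 = 0) : ∃ b, t0 < b ∧ b ≤ 1 ∧ (∀ y, t0 ≤ y → y ≤ b → F y = F t0) ∧
      (b = 1 ∨ R F b ≠ 0) ∧ L F b = 0 := by
  have hL' : L (fun y => F (1 - y)) (1 - t0) = 0 := by
    rw [← hR]
    apply L_eq
    apply ls_reflect
    rw [sub_sub_cancel]
    exact hF.rs h0.le h1
  obtain ⟨a, ha0, hat, hflat, hend, hRa⟩ := flat_left (good_reflect hF) (t0 := 1 - t0)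
    (by linarith) (by linarith) hL'
  refine ⟨1 - a, by linarith, by linarith, fun y hy hy' => ?_, ?_, ?_⟩
  · have := hflat (1 - y) (by linarith) (by linarith)
    simpa using this
  · rcases hend with h | h
    · left; linarith
    · by_cases ha : a = 0
      · left; linarith
      · right
        intro hR'
        apply h
        have ha' : 0 < a := lt_of_le_of_ne ha0 (Ne.symm ha)
        rw [← hR']
        apply L_eq
        apply ls_reflect
        exact hF.rs (by linarith) (by linarith)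
  · rw [← hRa]
    symm
    apply R_eq
    apply rs_reflect
    exact hF.ls (by linarith) (by linarith)

variable {V E : Type} [Fintype V] [Fintype E] [DecidableEq V] [DecidableEq E]

/-- function supported in the interior of one edge -/
noncomputable def edgeFun {V E : Type} [DecidableEq E] (e : E) (T : ℝ → ℝ) : Pt V E → ℝ
  | Sum.inl _ => 0
  | Sum.inr (e', t) => if e' = e then T t else 0

theorem on_edgeFun (G : MGraph V E) (e : E) {T : ℝ → ℝ} (h0 : T 0 = 0) (h1 : T 1 = 0) {t : ℝ}
    (ht0 : 0 ≤ t) (ht1 : t ≤ 1) : G.on (edgeFun e T) e t = T t := by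
  rcases eq_or_lt_of_le ht0 with h | h
  · subst h
    rw [G.on_zero, h0]; rfl
  · rcases eq_or_lt_of_le ht1 with h' | h'
    · subst h'
      rw [G.on_one, h1]; rfl
    · have : G.on (edgeFun e T) e ((⟨t, h, h'⟩ : Set.Ioo (0:ℝ) 1) : ℝ) = _ :=
        G.on_mid (edgeFun e T) e ⟨t, h, h'⟩
      rw [this]
      simp [edgeFun]

theorem on_edgeFun_ne (G : MGraph V E) {e e' : E} (hne : e' ≠ e) (T : ℝ → ℝ) (t : ℝ) :
    G.on (edgeFun e T) e' t = 0 := by
  unfold MGraph.on MGraph.pt
  split_ifs <;> simp [edgeFun, hne]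

/-- the tent `-(min (t-a) (b-t) δ)⁺` written with hinges -/
noncomputable def tent (a b δ : ℝ) (t : ℝ) : ℝ :=
  -(max (t - a) 0) + max (t - (a + δ)) 0 + (max (t - (b - δ)) 0 + -(max (t - b) 0))

theorem tent_rs (a b δ t : ℝ) : RS (tent a b δ) t
    (-(if a ≤ t then 1 else 0) + (if a + δ ≤ t then 1 else 0) +
      ((if b - δ ≤ t then 1 else 0) + -(if b ≤ t then 1 else 0))) :=
  ((germ_hinge_right a t).neg.add (germ_hinge_right (a + δ) t)).add
    ((germ_hinge_right (b - δ) t).add (germ_hinge_right b t).neg)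

theorem tent_ls (a b δ t : ℝ) : LS (tent a b δ) t
    (-(if a < t then -1 else 0) + (if a + δ < t then -1 else 0) +
      ((if b - δ < t then -1 else 0) + -(if b < t then -1 else 0))) :=
  ((germ_hinge_left a t).neg.add (germ_hinge_left (a + δ) t)).add
    ((germ_hinge_left (b - δ) t).add (germ_hinge_left b t).neg)

theorem RS.congr_le {F H : ℝ → ℝ} {t : ℝ} {m : ℤ} (h : RS F t m) (h0 : 0 ≤ t) (h1 : t < 1)
    (hFH : ∀ y, 0 ≤ y → y ≤ 1 → H y = F y) : RS H t m :=
  Germ.congr h ⟨1 - t, by linarith, fun s hs hs' => hFH _ (by linarith) (by linarith)⟩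

theorem LS.congr_le {F H : ℝ → ℝ} {t : ℝ} {m : ℤ} (h : LS F t m) (h0 : 0 < t) (h1 : t ≤ 1)
    (hFH : ∀ y, 0 ≤ y → y ≤ 1 → H y = F y) : LS H t m :=
  Germ.congr h ⟨t, h0, fun s hs hs' => hFH _ (by linarith) (by linarith)⟩

theorem tent_zero {a b δ : ℝ} (ha : 0 ≤ a) (hd : 0 < δ) (hab : a + δ ≤ b - δ) :
    tent a b δ 0 = 0 := by
  unfold tent
  rw [max_eq_right (by linarith), max_eq_right (by linarith), max_eq_right (by linarith),
    max_eq_right (by linarith)]
  ring

theorem tent_one {a b δ : ℝ} (hb : b ≤ 1) (hd : 0 < δ) (hab : a + δ ≤ b - δ) :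
    tent a b δ 1 = 0 := by
  unfold tent
  rw [max_eq_left (by linarith), max_eq_left (by linarith), max_eq_left (by linarith),
    max_eq_left (by linarith)]
  ring

theorem isRat_tent (G : MGraph V E) (e : E) {a b δ : ℝ} (ha : 0 ≤ a) (hb : b ≤ 1) (hd : 0 < δ)
    (hab : a + δ ≤ b - δ) : G.IsRat (edgeFun e (tent a b δ)) := by
  intro e'
  by_cases he : e' = e
  · subst he
    exact ⟨fun t h0 h1 => ⟨_, (tent_rs a b δ t).congr_le h0 h1 fun y hy hy' =>
      on_edgeFun G e' (tent_zero ha hd hab) (tent_one hb hd hab) hy hy'⟩,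
      fun t h0 h1 => ⟨_, (tent_ls a b δ t).congr_le h0 h1 fun y hy hy' =>
      on_edgeFun G e' (tent_zero ha hd hab) (tent_one hb hd hab) hy hy'⟩⟩
  · exact ⟨fun t h0 h1 => ⟨0, (Germ.const 0).congr ⟨1, one_pos, fun s _ _ =>
      on_edgeFun_ne G he _ _⟩⟩, fun t h0 h1 => ⟨0, (Germ.const 0).congr ⟨1, one_pos, fun s _ _ =>
      on_edgeFun_ne G he _ _⟩⟩⟩

theorem div_tent_inr (G : MGraph V E) (e : E) {a b δ : ℝ} (ha : 0 ≤ a) (hb : b ≤ 1) (hd : 0 < δ)
    (hab : a + δ ≤ b - δ) (e' : E) (t : Set.Ioo (0:ℝ) 1) :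
    G.div (edgeFun e (tent a b δ)) (Sum.inr (e', t)) =
      if e' = e then (-(if (t : ℝ) = a then 1 else 0) + (if (t : ℝ) = a + δ then 1 else 0) +
        (if (t : ℝ) = b - δ then 1 else 0) - (if (t : ℝ) = b then 1 else 0)) else 0 := by
  simp only [MGraph.div]
  by_cases he : e' = e
  · rw [if_pos he]
    subst he
    have h1 : R (G.on (edgeFun e' (tent a b δ)) e') t = _ :=
      R_eq ((tent_rs a b δ t).congr_le t.2.1.le t.2.2 fun y hy hy' =>
        on_edgeFun G e' (tent_zero ha hd hab) (tent_one hb hd hab) hy hy')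
    have h2 : L (G.on (edgeFun e' (tent a b δ)) e') t = _ :=
      L_eq ((tent_ls a b δ t).congr_le t.2.1 t.2.2.le fun y hy hy' =>
        on_edgeFun G e' (tent_zero ha hd hab) (tent_one hb hd hab) hy hy')
    rw [h1, h2]
    have key : ∀ u : ℝ, (if u ≤ (t:ℝ) then (1:ℤ) else 0) + (if u < (t:ℝ) then -1 else 0) =
        if (t:ℝ) = u then 1 else 0 := by
      intro u
      rcases lt_trichotomy (t:ℝ) u with h | h | h
      · rw [if_neg (not_le.2 h), if_neg (not_lt.2 h.le), if_neg h.ne]; rfl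
      · rw [if_pos h.ge, if_neg (not_lt.2 h.le), if_pos h]; rfl
      · rw [if_pos h.le, if_pos h, if_neg h.ne']; rfl
    have k1 := key a
    have k2 := key (a + δ)
    have k3 := key (b - δ)
    have k4 := key b
    linarith
  · rw [if_neg he]
    have h1 : R (G.on (edgeFun e (tent a b δ)) e') t = 0 :=
      R_eq ((Germ.const 0).congr ⟨1, one_pos, fun s _ _ => on_edgeFun_ne G he _ _⟩)
    have h2 : L (G.on (edgeFun e (tent a b δ)) e') t = 0 :=
      L_eq ((Germ.const 0).congr ⟨1, one_pos, fun s _ _ => on_edgeFun_ne G he _ _⟩)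
    rw [h1, h2]; rfl

theorem div_tent_inl (G : MGraph V E) (e : E) {a b δ : ℝ} (ha : 0 ≤ a) (hb : b ≤ 1) (hd : 0 < δ)
    (hab : a + δ ≤ b - δ) (v : V) :
    G.div (edgeFun e (tent a b δ)) (Sum.inl v) =
      (if G.src e = v then -(if a = 0 then 1 else 0) else 0) +
        (if G.tgt e = v then -(if b = 1 then 1 else 0) else 0) := by
  simp only [MGraph.div]
  rw [Finset.sum_eq_single e]
  · have h1 : R (G.on (edgeFun e (tent a b δ)) e) 0 = _ :=
      R_eq ((tent_rs a b δ 0).congr_le le_rfl zero_lt_one fun y hy hy' =>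
        on_edgeFun G e (tent_zero ha hd hab) (tent_one hb hd hab) hy hy')
    have h2 : L (G.on (edgeFun e (tent a b δ)) e) 1 = _ :=
      L_eq ((tent_ls a b δ 1).congr_le zero_lt_one le_rfl fun y hy hy' =>
        on_edgeFun G e (tent_zero ha hd hab) (tent_one hb hd hab) hy hy')
    rw [h1, h2, if_neg (show ¬ (a + δ ≤ 0) by linarith), if_neg (show ¬ (b - δ ≤ 0) by linarith),
      if_neg (show ¬ (b ≤ 0) by linarith), if_pos (show a < 1 by linarith),
      if_pos (show a + δ < 1 by linarith), if_pos (show b - δ < 1 by linarith)]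
    have k1 : (if a ≤ 0 then (1:ℤ) else 0) = if a = 0 then 1 else 0 := by
      by_cases h : a = 0
      · rw [if_pos h.le, if_pos h]
      · rw [if_neg (fun h' => h (le_antisymm h' ha)), if_neg h]
    have k2 : (if b < 1 then (-1:ℤ) else 0) = -1 + if b = 1 then 1 else 0 := by
      by_cases h : b = 1
      · rw [if_neg (by linarith), if_pos h]; rfl
      · rw [if_pos (lt_of_le_of_ne hb h), if_neg h]; rfl
    rw [k1, k2]
    split_ifs <;> simp
  · intro e' _ he
    have h1 : R (G.on (edgeFun e (tent a b δ)) e') 0 = 0 :=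
      R_eq ((Germ.const 0).congr ⟨1, one_pos, fun s _ _ => on_edgeFun_ne G he _ _⟩)
    have h2 : L (G.on (edgeFun e (tent a b δ)) e') 1 = 0 :=
      L_eq ((Germ.const 0).congr ⟨1, one_pos, fun s _ _ => on_edgeFun_ne G he _ _⟩)
    rw [h1, h2]
    simp
  · intro h
    exact absurd (Finset.mem_univ e) h

/-- `F` is equivalent to an effective divisor with a chip at `x`. -/
def MGraph.Cov (G : MGraph V E) (F : Pt V E →₀ ℤ) (x : Pt V E) : Prop :=
  ∃ D : Pt V E →₀ ℤ, (∀ y, 0 ≤ D y) ∧ 1 ≤ D x ∧ G.MEquiv F D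

/-- **Convexity along edges.** -/
theorem cov_edge (G : MGraph V E) (F : Pt V E →₀ ℤ) (e : E) (hu : G.Cov F (Sum.inl (G.src e)))
    (hv : G.Cov F (Sum.inl (G.tgt e))) (t : Set.Ioo (0:ℝ) 1) : G.Cov F (Sum.inr (e, t)) := by
  classical
  obtain ⟨Du, hDu, hu1, hFu⟩ := hu
  obtain ⟨Dv, hDv, hv1, hFv⟩ := hv
  obtain ⟨f, hf, hfv⟩ := MEquiv.trans G (MEquiv.symm G hFu) hFv
  set x : Pt V E := Sum.inr (e, t) with hx
  set c := f x with hc
  have hpos : ∀ y, 0 ≤ Du y + G.div f y := fun y => by rw [← hfv y]; exact hDv y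
  -- the truncated divisor
  set D1 : Pt V E →₀ ℤ := Du + G.divF (trunc f c) (isRat_trunc G hf c) with hD1
  have hD1a : ∀ y, D1 y = Du y + G.div (trunc f c) y := fun y => by
    rw [hD1, Finsupp.add_apply, divF_apply]
  have hD10 : ∀ y, 0 ≤ D1 y := fun y => by
    rw [hD1a]; exact trunc_nonneg G hf c hDu hpos y
  have hFD1 : G.MEquiv F D1 :=
    MEquiv.trans G hFu ⟨trunc f c, isRat_trunc G hf c, hD1a⟩
  have honx : G.on f e t = c := by rw [G.on_mid]
  by_cases hR : 0 < R (G.on f e) t
  · refine ⟨D1, hD10, ?_, hFD1⟩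
    rw [hD1a, hx, div_trunc_eq_mid G hf (c := c) rfl]
    have := hDu (Sum.inr (e, t))
    have h1 := le_max_left (R (G.on f e) t) 0
    have h2 := le_max_right (L (G.on f e) t) 0
    linarith
  by_cases hL : 0 < L (G.on f e) t
  · refine ⟨D1, hD10, ?_, hFD1⟩
    rw [hD1a, hx, div_trunc_eq_mid G hf (c := c) rfl]
    have := hDu (Sum.inr (e, t))
    have h1 := le_max_right (R (G.on f e) t) 0
    have h2 := le_max_left (L (G.on f e) t) 0
    linarith
  push Not at hR hL
  by_cases h0 : R (G.on f e) t + L (G.on f e) t < 0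
  · refine ⟨Du, hDu, ?_, hFu⟩
    have h1 := hpos x
    have h2 : G.div f x = R (G.on f e) t + L (G.on f e) t := rfl
    linarith
  have hR0 : R (G.on f e) t = 0 := by linarith
  have hL0 : L (G.on f e) t = 0 := by linarith
  obtain ⟨a, ha0, hat, haflat, haend, haR⟩ := flat_left (hf e) t.2.1 t.2.2 hL0
  obtain ⟨b, hbt, hb1, hbflat, hbend, hbL⟩ := flat_right (hf e) t.2.1 t.2.2 hR0
  have hfa : G.on f e a = c := by rw [haflat a le_rfl hat.le, honx]
  have hfb : G.on f e b = c := by rw [hbflat b hbt.le le_rfl, honx]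
  have hDa : 1 ≤ D1 (G.pt e a) := by
    rcases eq_or_lt_of_le ha0 with h | h
    · rw [← h, G.pt_zero, hD1a]
      have h1 := (div_trunc_eq G hf (c := c) (x := Sum.inl (G.src e)) (by
        rw [← G.on_zero f e, h]; exact hfa)).1
      linarith
    · have ha1 : a < 1 := hat.trans t.2.2
      rw [G.pt_mid e ⟨h, ha1⟩, hD1a]
      have h3 : f (Sum.inr (e, ⟨a, h, ha1⟩)) = c := by
        rw [← G.on_mid f e ⟨a, h, ha1⟩]; exact hfa
      have h4 := div_trunc_eq_mid G hf h3
      have h5 := hDu (Sum.inr (e, ⟨a, h, ha1⟩))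
      have h6 := hpos (Sum.inr (e, ⟨a, h, ha1⟩))
      have h7 : G.div f (Sum.inr (e, ⟨a, h, ha1⟩)) = R (G.on f e) a + L (G.on f e) a := rfl
      rw [haR] at h7
      simp only [haR] at h4
      rcases haend with h8 | h8
      · exact absurd h8 h.ne'
      · rcases lt_or_gt_of_ne h8 with h9 | h9
        · have h10 := le_max_right (L (G.on f e) a) 0
          have h11 := le_max_right (0:ℤ) 0
          linarith
        · have h10 := le_max_left (L (G.on f e) a) 0
          have h11 := le_max_right (0:ℤ) 0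
          linarith
  have hDb : 1 ≤ D1 (G.pt e b) := by
    rcases eq_or_lt_of_le hb1 with h | h
    · rw [h, G.pt_one, hD1a]
      have h1 := (div_trunc_eq G hf (c := c) (x := Sum.inl (G.tgt e)) (by
        rw [← G.on_one f e, ← h]; exact hfb)).2
      have h2 := hfv (Sum.inl (G.tgt e))
      linarith
    · have hb0 : 0 < b := t.2.1.trans hbt
      rw [G.pt_mid e ⟨hb0, h⟩, hD1a]
      have h3 : f (Sum.inr (e, ⟨b, hb0, h⟩)) = c := by
        rw [← G.on_mid f e ⟨b, hb0, h⟩]; exact hfb
      have h4 := div_trunc_eq_mid G hf h3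
      have h5 := hDu (Sum.inr (e, ⟨b, hb0, h⟩))
      have h6 := hpos (Sum.inr (e, ⟨b, hb0, h⟩))
      have h7 : G.div f (Sum.inr (e, ⟨b, hb0, h⟩)) = R (G.on f e) b + L (G.on f e) b := rfl
      rw [hbL] at h7
      simp only [hbL] at h4
      rcases hbend with h8 | h8
      · exact absurd h8 h.ne
      · rcases lt_or_gt_of_ne h8 with h9 | h9
        · have h10 := le_max_right (R (G.on f e) b) 0
          have h11 := le_max_right (0:ℤ) 0
          linarith
        · have h10 := le_max_left (R (G.on f e) b) 0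
          have h11 := le_max_right (0:ℤ) 0
          linarith
  -- move the two chips towards each other
  set δ := min ((t:ℝ) - a) (b - t) with hδ
  have hδ0 : 0 < δ := lt_min (by linarith) (by linarith)
  have hδ1 := min_le_left ((t:ℝ) - a) (b - t)
  have hδ2 := min_le_right ((t:ℝ) - a) (b - t)
  rw [← hδ] at hδ1 hδ2
  have hab : a + δ ≤ b - δ := by linarith
  set D2 : Pt V E →₀ ℤ := D1 + G.divF (edgeFun e (tent a b δ)) (isRat_tent G e ha0 hb1 hδ0 hab)
    with hD2
  have hD2a : ∀ y, D2 y = D1 y + G.div (edgeFun e (tent a b δ)) y := fun y => by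
    rw [hD2, Finsupp.add_apply, divF_apply]
  refine ⟨D2, fun y => ?_, ?_, MEquiv.trans G hFD1 ⟨_, isRat_tent G e ha0 hb1 hδ0 hab, hD2a⟩⟩
  · rw [hD2a]
    rcases y with v | ⟨e', s⟩
    · rw [div_tent_inl G e ha0 hb1 hδ0 hab v]
      by_cases h1 : G.src e = v
      · have h2 : G.tgt e ≠ v := fun h2 => G.ne e (h1.trans h2.symm)
        rw [if_pos h1, if_neg h2]
        by_cases h3 : a = 0
        · rw [h3, G.pt_zero, h1] at hDa
          rw [if_pos h3]; linarith
        · rw [if_neg h3]
          have := hD10 (Sum.inl v)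
          linarith
      · rw [if_neg h1]
        by_cases h2 : G.tgt e = v
        · rw [if_pos h2]
          by_cases h3 : b = 1
          · rw [h3, G.pt_one, h2] at hDb
            rw [if_pos h3]; linarith
          · rw [if_neg h3]
            have := hD10 (Sum.inl v)
            linarith
        · rw [if_neg h2]
          have := hD10 (Sum.inl v)
          linarith
    · rw [div_tent_inr G e ha0 hb1 hδ0 hab e' s]
      by_cases he : e' = e
      · rw [if_pos he]
        subst he
        have h0 := hD10 (Sum.inr (e', s))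
        have hs := s.2
        have p1 : (0:ℤ) ≤ (if (s:ℝ) = a + δ then 1 else 0) := by split_ifs <;> norm_num
        have p2 : (0:ℤ) ≤ (if (s:ℝ) = b - δ then 1 else 0) := by split_ifs <;> norm_num
        by_cases h1 : (s:ℝ) = a
        · have h2 : ¬ (s:ℝ) = b := by rw [h1]; intro h; linarith
          have h3 : G.pt e' a = Sum.inr (e', s) := by
            rw [← h1]; exact G.pt_mid e' hs
          rw [h3] at hDa
          rw [if_pos h1, if_neg h2]
          linarith
        · rw [if_neg h1]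
          by_cases h2 : (s:ℝ) = b
          · have h3 : G.pt e' b = Sum.inr (e', s) := by
              rw [← h2]; exact G.pt_mid e' hs
            rw [h3] at hDb
            rw [if_pos h2]
            linarith
          · rw [if_neg h2]
            linarith
      · rw [if_neg he, add_zero]; exact hD10 _
  · rw [hD2a, hx, div_tent_inr G e ha0 hb1 hδ0 hab e t, if_pos rfl]
    have h0 := hD10 (Sum.inr (e, t))
    rw [if_neg hat.ne', if_neg hbt.ne]
    rcases min_choice ((t:ℝ) - a) (b - t) with h | h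
    · rw [← hδ] at h
      have p2 : (0:ℤ) ≤ (if (t:ℝ) = b - δ then 1 else 0) := by split_ifs <;> norm_num
      rw [if_pos (show (t:ℝ) = a + δ by linarith)]
      linarith
    · rw [← hδ] at h
      have p1 : (0:ℤ) ≤ (if (t:ℝ) = a + δ then 1 else 0) := by split_ifs <;> norm_num
      rw [if_pos (show (t:ℝ) = b - δ by linarith)]
      linarith

end Pool.Agent.X71.MG
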