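import Pool.Agent.X71.MG.Bridge

set_option autoImplicit false
set_option linter.unusedSectionVars false
set_option linter.unusedSimpArgs false

/-! Finite lower bounds. -/

namespace Pool.Agent.X71.MG

open Finset

/-- Laplacian of a multiplicity matrix -/
def ml {n : ℕ} (M : Fin n → Fin n → ℤ) (f : Fin n → ℤ) (v : Fin n) : ℤ :=
  ∑ w, M v w * (f v - f w)

theorem ml_sub {n : ℕ} (M : Fin n → Fin n → ℤ) (f g : Fin n → ℤ) (v : Fin n) :
    ml M (fun v => f v - g v) v = ml M f v - ml M g v := by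
  unfold ml
  rw [← sum_sub_distrib]
  exact sum_congr rfl fun w _ => by ring

theorem ml_sum {n : ℕ} {M : Fin n → Fin n → ℤ} (hM : ∀ v w, M v w = M w v) (f : Fin n → ℤ) :
    ∑ v, ml M f v = 0 := by
  have h : ∑ v, ml M f v = ∑ v, ∑ w, M v w * (f w - f v) := by
    unfold ml
    rw [sum_comm]
    exact sum_congr rfl fun v _ => sum_congr rfl fun w _ => by rw [hM]
  have h2 : ∑ v, ml M f v = - ∑ v, ml M f v := by
    nth_rw 1 [h]
    unfold ml
    rw [← sum_neg_distrib]
    refine sum_congr rfl fun v _ => ?_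
    rw [← sum_neg_distrib]
    exact sum_congr rfl fun w _ => by ring
  omega

/-- the multiplicities of the seven-vertex graph -/
def M7 : Fin 7 → Fin 7 → ℤ :=
  ![![0, 0, 3, 0, 1, 0, 0], ![0, 0, 0, 0, 3, 1, 0], ![3, 0, 0, 1, 0, 0, 1], ![0, 0, 1, 0, 0, 3, 0],
    ![1, 3, 0, 0, 0, 0, 1], ![0, 1, 0, 3, 0, 0, 1], ![0, 0, 1, 0, 1, 1, 0]]

/-- the same Laplacian, for evaluation -/
def lap7 (f : Fin 7 → ℤ) (v : Fin 7) : ℤ := ∑ w, M7 v w * (f v - f w)

/-- number of edges leaving `S` at `v` -/
def outd (S : Fin 7 → Bool) (v : Fin 7) : ℤ := ∑ w, if S w then 0 else M7 v w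

/-- four chips -/
def A4 (i j k v : Fin 7) : ℤ :=
  (if v = 0 then 1 else 0) + (if v = i then 1 else 0) + (if v = j then 1 else 0) +
    (if v = k then 1 else 0)

/-- firing scripts -/
def gs : List (Fin 7 → ℤ) := [![0, 0, 0, 0, 0, 0, 0], ![1, 0, 0, 0, 0, 0, 0],
  ![1, 0, 1, 0, 0, 0, 0], ![0, 1, 0, 0, 1, 0, 0],
  ![1, 0, 1, 0, 0, 0, 1], ![0, 0, 0, 1, 0, 1, 0], ![0, 0, 0, 0, 0, 0, 1]]

/-- no chip at `q` and no legal firing set avoids `q` -/
def Red (B : Fin 7 → ℤ) (q : Fin 7) : Prop :=
  B q ≤ 0 ∧ ∀ S : Fin 7 → Bool, S q = false → (∃ v, S v = true) → ∃ v, S v = true ∧ B v < outd S v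

instance (B : Fin 7 → ℤ) (q : Fin 7) : Decidable (Red B q) := by unfold Red; infer_instance

theorem key0 : ∀ j k : Fin 7, ∃ q, ∃ g ∈ gs, Red (fun v => A4 0 j k v - lap7 g v) q := by
  decide +kernel
theorem key1 : ∀ j k : Fin 7, ∃ q, ∃ g ∈ gs, Red (fun v => A4 1 j k v - lap7 g v) q := by
  decide +kernel
theorem key2 : ∀ j k : Fin 7, ∃ q, ∃ g ∈ gs, Red (fun v => A4 2 j k v - lap7 g v) q := by
  decide +kernel
theorem key3 : ∀ j k : Fin 7, ∃ q, ∃ g ∈ gs, Red (fun v => A4 3 j k v - lap7 g v) q := by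
  decide +kernel
theorem key4 : ∀ j k : Fin 7, ∃ q, ∃ g ∈ gs, Red (fun v => A4 4 j k v - lap7 g v) q := by
  decide +kernel
theorem key5 : ∀ j k : Fin 7, ∃ q, ∃ g ∈ gs, Red (fun v => A4 5 j k v - lap7 g v) q := by
  decide +kernel
theorem key6 : ∀ j k : Fin 7, ∃ q, ∃ g ∈ gs, Red (fun v => A4 6 j k v - lap7 g v) q := by
  decide +kernel

theorem key (i j k : Fin 7) : ∃ q, ∃ g : Fin 7 → ℤ, Red (fun v => A4 i j k v - ml M7 g v) q := by
  have h : ∃ q, ∃ g ∈ gs, Red (fun v => A4 i j k v - lap7 g v) q := by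
    fin_cases i
    · exact key0 j k
    · exact key1 j k
    · exact key2 j k
    · exact key3 j k
    · exact key4 j k
    · exact key5 j k
    · exact key6 j k
  obtain ⟨q, g, -, h⟩ := h
  exact ⟨q, g, h⟩

theorem M7_symm : ∀ v w, M7 v w = M7 w v := by decide +kernel

theorem M7_nonneg : ∀ v w, 0 ≤ M7 v w := by decide +kernel

theorem red_no {B : Fin 7 → ℤ} {q : Fin 7} (hB : Red B q) (h : Fin 7 → ℤ)
    (hh : ∀ v, (if v = q then 1 else 0) ≤ B v - ml M7 h v) : False := by
  obtain ⟨m, -, hm⟩ := exists_max_image univ h ⟨q, mem_univ q⟩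
  by_cases hq : h q = h m
  · have h1 := hh q
    rw [if_pos rfl] at h1
    have h2 : 0 ≤ ml M7 h q := sum_nonneg fun w _ =>
      mul_nonneg (M7_nonneg q w) (by have := hm w (mem_univ w); omega)
    have := hB.1
    omega
  · obtain ⟨v, hv, hlt⟩ := hB.2 (fun v => decide (h v = h m)) (by simpa using hq) ⟨m, by simp⟩
    simp only [decide_eq_true_eq] at hv
    have h1 := hh v
    have h0 : (0:ℤ) ≤ if v = q then 1 else 0 := by split_ifs <;> norm_num
    have h2 : outd (fun v => decide (h v = h m)) v ≤ ml M7 h v := by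
      apply sum_le_sum
      intro w _
      have h3 := M7_nonneg v w
      have h4 := hm w (mem_univ w)
      by_cases hw : h w = h m
      · simp only [hw, decide_true, ↓reduceIte, hv, sub_self, mul_zero, le_refl]
      · simp only [hw, decide_false, Bool.false_eq_true, ↓reduceIte]
        have h5 : 1 ≤ h v - h w := by omega
        nlinarith
    omega

theorem dec_pos {n : ℕ} {A : Fin n → ℤ} (h : 0 < ∑ v, A v) : ∃ i, 1 ≤ A i := by
  by_contra hn
  push Not at hn
  have := sum_nonpos fun i (_ : i ∈ univ) => show A i ≤ 0 by have := hn i; omega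
  omega

/-- no divisor of degree four on the seven-vertex graph has rank one -/
theorem claim1 (A : Fin 7 → ℤ) (hA : ∑ v, A v = 4) :
    ∃ x, ¬ ∃ f : Fin 7 → ℤ, ∀ v, 0 ≤ A v - (if v = x then 1 else 0) - ml M7 f v := by
  by_contra hn
  push Not at hn
  obtain ⟨f0, hf0⟩ := hn 0
  set A0 : Fin 7 → ℤ := fun v => A v - ml M7 f0 v with hA0
  have hs0 : ∑ v, A0 v = 4 := by
    rw [hA0, sum_sub_distrib, ml_sum M7_symm, hA]; rfl
  have hA00 : ∀ v, 0 ≤ A0 v - (if v = 0 then 1 else 0) := fun v => by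
    have := hf0 v
    simp only [hA0]
    omega
  have hdec : ∀ (C : Fin 7 → ℤ), (∀ v, 0 ≤ C v) → 0 < ∑ v, C v → ∃ i, ∀ v,
      0 ≤ C v - (if v = i then 1 else 0) := by
    intro C hC hpos
    obtain ⟨i, hi⟩ := dec_pos hpos
    exact ⟨i, fun v => by
      have := hC v
      split_ifs with h
      · rw [h]; omega
      · omega⟩
  have hsum : ∀ (C : Fin 7 → ℤ) (i : Fin 7), ∑ v, (C v - (if v = i then 1 else 0)) =
      ∑ v, C v - 1 := by
    intro C i
    rw [sum_sub_distrib]
    simp
  obtain ⟨i, hi⟩ := hdec _ hA00 (by rw [hsum, hs0]; norm_num)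
  obtain ⟨j, hj⟩ := hdec _ hi (by rw [hsum, hsum, hs0]; norm_num)
  obtain ⟨k, hk⟩ := hdec _ hj (by rw [hsum, hsum, hsum, hs0]; norm_num)
  have hz : ∑ v, (A0 v - (if v = 0 then 1 else 0) - (if v = i then 1 else 0) -
      (if v = j then 1 else 0) - (if v = k then 1 else 0)) = 0 := by
    rw [hsum, hsum, hsum, hsum, hs0]; norm_num
  have hz' := (sum_eq_zero_iff_of_nonneg fun v _ => hk v).1 hz
  have heq : ∀ v, A0 v = A4 i j k v := fun v => by
    have := hz' v (mem_univ v)
    unfold A4
    omega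
  obtain ⟨q, g, hq⟩ := key i j k
  obtain ⟨fq, hfq⟩ := hn q
  apply red_no hq (fun v => (fq v - f0 v) - g v)
  intro v
  rw [ml_sub M7 (fun v => fq v - f0 v) g v, ml_sub, ← heq v]
  have := hfq v
  simp only [hA0]
  omega

/-- the matrix of the complete graph -/
def M9 : Fin 9 → Fin 9 → ℤ := fun v w => if v = w then 0 else 1

theorem M9_symm : ∀ v w, M9 v w = M9 w v := by decide +kernel

theorem claim2 (B : Fin 9 → ℤ) (hB : ∑ v, B v ≤ 7) :
    ∃ y, ¬ ∃ f : Fin 9 → ℤ, ∀ v, 0 ≤ B v - (if v = y then 1 else 0) - ml M9 f v := by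
  by_contra hn
  push Not at hn
  obtain ⟨f0, hf0⟩ := hn 0
  set B0 : Fin 9 → ℤ := fun v => B v - ml M9 f0 v with hB0
  have hs0 : ∑ v, B0 v ≤ 7 := by
    rw [hB0, sum_sub_distrib, ml_sum M9_symm, sub_zero]; exact hB
  have hB00 : ∀ v, 0 ≤ B0 v := fun v => by
    have := hf0 v
    simp only [hB0]
    have h1 : (0:ℤ) ≤ if v = 0 then 1 else 0 := by split_ifs <;> norm_num
    omega
  have hy : ∀ y, 1 ≤ B0 y := by
    intro y
    obtain ⟨fy, hfy⟩ := hn y
    set h : Fin 9 → ℤ := fun v => fy v - f0 v with hh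
    have hBh : ∀ v, (if v = y then 1 else 0) ≤ B0 v - ml M9 h v := fun v => by
      rw [hh, ml_sub]
      have := hfy v
      simp only [hB0]
      omega
    obtain ⟨m, -, hm⟩ := exists_max_image univ h ⟨y, mem_univ y⟩
    set S := univ.filter (fun v => h v = h m) with hS
    set T := univ.filter (fun v => ¬ h v = h m) with hT
    have hST : S.card + T.card = 9 := by
      have := card_filter_add_card_filter_not (s := (univ : Finset (Fin 9))) (fun v => h v = h m)
      rw [card_univ, Fintype.card_fin] at this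
      exact this
    have hSpos : 0 < S.card := card_pos.2 ⟨m, mem_filter.2 ⟨mem_univ m, rfl⟩⟩
    have hTz : T.card = 0 := by
      by_contra hTne
      have hTpos : 0 < T.card := Nat.pos_of_ne_zero hTne
      have h1 : ∀ v ∈ S, (T.card : ℤ) ≤ B0 v := by
        intro v hv
        have hv' : h v = h m := (mem_filter.1 hv).2
        have h2 : (T.card : ℤ) ≤ ml M9 h v := by
          calc (T.card : ℤ) = ∑ w ∈ T, 1 := by simp
            _ = ∑ w, if ¬ h w = h m then (1:ℤ) else 0 := by rw [hT, sum_filter]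
            _ ≤ ml M9 h v := by
              apply sum_le_sum
              intro w _
              have h4 := hm w (mem_univ w)
              unfold M9
              by_cases hw : h w = h m
              · rw [if_neg (not_not.2 hw), hw, hv', sub_self, mul_zero]
              · rw [if_pos hw, if_neg (show ¬ v = w from fun hvw => hw (by rw [← hvw]; exact hv')),
                  one_mul]
                omega
        have h3 := hBh v
        have h5 : (0:ℤ) ≤ if v = y then 1 else 0 := by split_ifs <;> norm_num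
        omega
      have h6 : (S.card : ℤ) * T.card ≤ ∑ v ∈ S, B0 v := by
        have := sum_le_sum h1
        rw [sum_const, nsmul_eq_mul] at this
        exact this
      have h7 : ∑ v ∈ S, B0 v ≤ ∑ v, B0 v :=
        sum_le_sum_of_subset_of_nonneg (subset_univ S) fun v _ _ => hB00 v
      have h8 : (S.card : ℤ) + T.card = 9 := by exact_mod_cast hST
      have h9 : (1:ℤ) ≤ S.card := by exact_mod_cast hSpos
      have h10 : (1:ℤ) ≤ T.card := by exact_mod_cast hTpos
      nlinarith
    have hall : ∀ w, h w = h m := by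
      intro w
      by_contra hw
      have : w ∈ T := mem_filter.2 ⟨mem_univ w, hw⟩
      rw [card_eq_zero] at hTz
      rw [hTz] at this
      exact notMem_empty w this
    have hml : ml M9 h y = 0 := sum_eq_zero fun w _ => by rw [hall w, hall y]; ring
    have := hBh y
    rw [if_pos rfl, hml] at this
    omega
  have : ∑ v : Fin 9, (1:ℤ) ≤ ∑ v, B0 v := sum_le_sum fun v _ => hy v
  simp at this
  omega

variable {V E : Type} [Fintype V] [Fintype E] [DecidableEq V] [DecidableEq E]

/-- multiplicity matrix of a graph -/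
def MGraph.mult (G : MGraph V E) (v w : V) : ℤ :=
  ∑ e : E, ((if G.src e = v ∧ G.tgt e = w then 1 else 0) +
    (if G.tgt e = v ∧ G.src e = w then 1 else 0))

theorem lap_mult (G : MGraph V E) (f : V → ℤ) (v : V) :
    G.lap f v = ∑ w, G.mult v w * (f v - f w) := by
  unfold MGraph.lap MGraph.mult
  simp only [sum_mul]
  rw [sum_comm]
  apply sum_congr rfl
  intro e _
  simp only [add_mul, sum_add_distrib, ite_mul, one_mul, zero_mul, ite_and]
  by_cases h1 : G.src e = v
  · by_cases h2 : G.tgt e = v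
    · exact absurd (h1.trans h2.symm) (G.ne e)
    · simp [h1, h2]
  · by_cases h2 : G.tgt e = v
    · simp [h1, h2]
    · simp [h1, h2]

/-- restriction to two pieces -/
theorem lap_split {V E : Type} [Fintype V] [Fintype E] [DecidableEq V] [DecidableEq E]
    (G : MGraph V E) {n m : ℕ} (σ : Fin n → V) (τ : Fin m → V) (M : Fin n → Fin n → ℤ)
    (N : Fin m → Fin m → ℤ)
    (hM : ∀ v w, G.mult v w = (∑ a, ∑ b, if σ a = v ∧ σ b = w then M a b else 0) +
      (∑ a, ∑ b, if τ a = v ∧ τ b = w then N a b else 0)) (f : V → ℤ) (v : V) :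
    G.lap f v = (∑ a, if σ a = v then ml M (fun a => f (σ a)) a else 0) +
      (∑ a, if τ a = v then ml N (fun a => f (τ a)) a else 0) := by
  have aux : ∀ {n : ℕ} (σ : Fin n → V) (M : Fin n → Fin n → ℤ),
      ∑ w, (∑ a, ∑ b, if σ a = v ∧ σ b = w then M a b else 0) * (f v - f w) =
        ∑ a, if σ a = v then ml M (fun a => f (σ a)) a else 0 := by
    intro n σ M
    simp only [sum_mul]
    rw [sum_comm]
    apply sum_congr rfl
    intro a _
    rw [sum_comm]
    by_cases ha : σ a = v
    · rw [if_pos ha]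
      unfold ml
      apply sum_congr rfl
      intro b _
      simp only [ha, true_and, ite_mul, zero_mul]
      rw [sum_ite_eq]
      simp
    · rw [if_neg ha]
      apply sum_eq_zero
      intro b _
      apply sum_eq_zero
      intro w _
      simp [ha]
  rw [lap_mult]
  simp only [hM, add_mul, sum_add_distrib]
  rw [aux σ M, aux τ N]

end Pool.Agent.X71.MG
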