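import Mathlib

set_option autoImplicit false

/-! One-sided integer slopes of real functions. -/

namespace Pool.Agent.X71.MG

/-- `g` is linear with slope `m` on a small segment `[0, ε)`. -/
def Germ (g : ℝ → ℝ) (m : ℤ) : Prop :=
  ∃ ε : ℝ, 0 < ε ∧ ∀ s : ℝ, 0 ≤ s → s < ε → g s = g 0 + m * s

theorem Germ.unique {g : ℝ → ℝ} {m m' : ℤ} (h : Germ g m) (h' : Germ g m') : m = m' := by
  obtain ⟨ε, he, h⟩ := h
  obtain ⟨ε', he', h'⟩ := h'
  have hs : 0 < min ε ε' / 2 := by positivity
  have h1 := h (min ε ε' / 2) hs.le (by have := min_le_left ε ε'; linarith)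
  have h2 := h' (min ε ε' / 2) hs.le (by have := min_le_right ε ε'; linarith)
  have h3 : (m : ℝ) * (min ε ε' / 2) = m' * (min ε ε' / 2) := by linarith
  have h4 := mul_right_cancel₀ hs.ne' h3
  exact_mod_cast h4

theorem Germ.congr {g h : ℝ → ℝ} {m : ℤ} (hg : Germ g m)
    (hh : ∃ δ : ℝ, 0 < δ ∧ ∀ s, 0 ≤ s → s < δ → h s = g s) : Germ h m := by
  obtain ⟨ε, he, h1⟩ := hg
  obtain ⟨δ, hd, h2⟩ := hh
  refine ⟨min ε δ, lt_min he hd, fun s hs hs' => ?_⟩
  rw [h2 s hs (lt_of_lt_of_le hs' (min_le_right _ _)), h2 0 le_rfl hd,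
    h1 s hs (lt_of_lt_of_le hs' (min_le_left _ _))]

theorem Germ.add {g h : ℝ → ℝ} {m m' : ℤ} (hg : Germ g m) (hh : Germ h m') :
    Germ (fun s => g s + h s) (m + m') := by
  obtain ⟨ε, he, h1⟩ := hg
  obtain ⟨δ, hd, h2⟩ := hh
  refine ⟨min ε δ, lt_min he hd, fun s hs hs' => ?_⟩
  beta_reduce
  rw [h2 s hs (lt_of_lt_of_le hs' (min_le_right _ _)),
    h1 s hs (lt_of_lt_of_le hs' (min_le_left _ _))]
  push_cast
  ring

theorem Germ.neg {g : ℝ → ℝ} {m : ℤ} (hg : Germ g m) : Germ (fun s => - g s) (-m) := by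
  obtain ⟨ε, he, h1⟩ := hg
  refine ⟨ε, he, fun s hs hs' => ?_⟩
  beta_reduce
  rw [h1 s hs hs']
  push_cast
  ring

theorem Germ.const (c : ℝ) : Germ (fun _ => c) 0 := ⟨1, one_pos, fun s _ _ => by simp⟩

theorem Germ.max_gt {g : ℝ → ℝ} {m : ℤ} {c : ℝ} (hg : Germ g m) (hc : c < g 0) :
    Germ (fun s => max (g s) c) m := by
  obtain ⟨ε, he, h1⟩ := hg
  apply Germ.congr (g := g) ⟨ε, he, h1⟩
  refine ⟨min ε ((g 0 - c) / (|(m : ℝ)| + 1)), lt_min he (div_pos (by linarith) (by positivity)),
    fun s hs hs' => ?_⟩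
  have h2 : s < (g 0 - c) / (|(m : ℝ)| + 1) := lt_of_lt_of_le hs' (min_le_right _ _)
  rw [lt_div_iff₀ (by positivity)] at h2
  have h3 := h1 s hs (lt_of_lt_of_le hs' (min_le_left _ _))
  have h4 : -(|(m : ℝ)| * s) ≤ m * s := by
    have := neg_abs_le (m : ℝ)
    nlinarith
  apply max_eq_left
  rw [h3]
  nlinarith

theorem Germ.max_lt {g : ℝ → ℝ} {m : ℤ} {c : ℝ} (hg : Germ g m) (hc : g 0 < c) :
    Germ (fun s => max (g s) c) 0 := by
  obtain ⟨ε, he, h1⟩ := hg
  apply Germ.congr (g := fun _ => c) (Germ.const c)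
  refine ⟨min ε ((c - g 0) / (|(m : ℝ)| + 1)), lt_min he (div_pos (by linarith) (by positivity)),
    fun s hs hs' => ?_⟩
  have h2 : s < (c - g 0) / (|(m : ℝ)| + 1) := lt_of_lt_of_le hs' (min_le_right _ _)
  rw [lt_div_iff₀ (by positivity)] at h2
  have h3 := h1 s hs (lt_of_lt_of_le hs' (min_le_left _ _))
  have h4 : m * s ≤ |(m : ℝ)| * s := by
    have := le_abs_self (m : ℝ)
    nlinarith
  apply max_eq_right
  rw [h3]
  nlinarith

theorem Germ.max_eq {g : ℝ → ℝ} {m : ℤ} {c : ℝ} (hg : Germ g m) (hc : g 0 = c) :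
    Germ (fun s => max (g s) c) (max m 0) := by
  obtain ⟨ε, he, h1⟩ := hg
  refine ⟨ε, he, fun s hs hs' => ?_⟩
  simp only
  rw [h1 s hs hs', hc, max_self]
  push_cast
  rcases le_total (m : ℝ) 0 with h | h
  · rw [max_eq_right h, max_eq_right (by nlinarith)]
    ring
  · rw [max_eq_left h, max_eq_left (by nlinarith)]

/-- slope of a hinge to the right -/
theorem germ_hinge_right (u t : ℝ) :
    Germ (fun s => max ((t + s) - u) 0) (if u ≤ t then 1 else 0) := by
  split_ifs with h
  · refine ⟨1, one_pos, fun s hs _ => ?_⟩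
    simp only
    rw [max_eq_left (by linarith), max_eq_left (by linarith)]
    push_cast
    ring
  · refine ⟨u - t, by linarith, fun s hs hs' => ?_⟩
    simp only
    rw [max_eq_right (by linarith), max_eq_right (by linarith)]
    simp

/-- slope of a hinge to the left -/
theorem germ_hinge_left (u t : ℝ) :
    Germ (fun s => max ((t - s) - u) 0) (if u < t then -1 else 0) := by
  split_ifs with h
  · refine ⟨t - u, by linarith, fun s hs hs' => ?_⟩
    simp only
    rw [max_eq_left (by linarith), max_eq_left (by linarith)]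
    push_cast
    ring
  · refine ⟨1, one_pos, fun s hs hs' => ?_⟩
    simp only
    rw [max_eq_right (by linarith), max_eq_right (by linarith)]
    simp

/-- `F` has slope `m` to the right of `t` -/
def RS (F : ℝ → ℝ) (t : ℝ) (m : ℤ) : Prop := Germ (fun s => F (t + s)) m

/-- `F` has outgoing slope `m` to the left of `t` -/
def LS (F : ℝ → ℝ) (t : ℝ) (m : ℤ) : Prop := Germ (fun s => F (t - s)) m

/-- all one-sided slopes on `[0,1]` exist and are integers -/
def Good (F : ℝ → ℝ) : Prop :=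
  (∀ t, 0 ≤ t → t < 1 → ∃ m : ℤ, RS F t m) ∧ (∀ t, 0 < t → t ≤ 1 → ∃ m : ℤ, LS F t m)

open Classical in
/-- the slope to the right -/
noncomputable def R (F : ℝ → ℝ) (t : ℝ) : ℤ := if h : ∃ m : ℤ, RS F t m then h.choose else 0

open Classical in
/-- the outgoing slope to the left -/
noncomputable def L (F : ℝ → ℝ) (t : ℝ) : ℤ := if h : ∃ m : ℤ, LS F t m then h.choose else 0

theorem R_eq {F : ℝ → ℝ} {t : ℝ} {m : ℤ} (h : RS F t m) : R F t = m := by
  have h' : ∃ m : ℤ, RS F t m := ⟨m, h⟩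
  unfold R
  rw [dif_pos h']
  exact h'.choose_spec.unique h

theorem L_eq {F : ℝ → ℝ} {t : ℝ} {m : ℤ} (h : LS F t m) : L F t = m := by
  have h' : ∃ m : ℤ, LS F t m := ⟨m, h⟩
  unfold L
  rw [dif_pos h']
  exact h'.choose_spec.unique h

theorem Good.rs {F : ℝ → ℝ} (h : Good F) {t : ℝ} (h0 : 0 ≤ t) (h1 : t < 1) : RS F t (R F t) := by
  obtain ⟨m, hm⟩ := h.1 t h0 h1
  rw [R_eq hm]; exact hm

theorem Good.ls {F : ℝ → ℝ} (h : Good F) {t : ℝ} (h0 : 0 < t) (h1 : t ≤ 1) : LS F t (L F t) := by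
  obtain ⟨m, hm⟩ := h.2 t h0 h1
  rw [L_eq hm]; exact hm

/-- near `t`, to the right, `F` is linear -/
theorem RS.near {F : ℝ → ℝ} {t : ℝ} {m : ℤ} (h : RS F t m) :
    ∃ ε : ℝ, 0 < ε ∧ ∀ y, t < y → y < t + ε → F y = F t + m * (y - t) ∧ RS F y m ∧ LS F y (-m) := by
  obtain ⟨ε, he, h⟩ := h
  refine ⟨ε, he, fun y h1 h2 => ?_⟩
  have key : ∀ z, t ≤ z → z < t + ε → F z = F t + m * (z - t) := by
    intro z hz hz'
    have := h (z - t) (by linarith) (by linarith)
    simpa using this
  refine ⟨key y h1.le h2, ⟨t + ε - y, by linarith, fun s hs hs' => ?_⟩,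
    ⟨y - t, by linarith, fun s hs hs' => ?_⟩⟩
  · simp only [add_zero]
    rw [key (y + s) (by linarith) (by linarith), key y h1.le h2]
    ring
  · simp only [sub_zero]
    rw [key (y - s) (by linarith) (by linarith), key y h1.le h2]
    push_cast
    ring

/-- near `t`, to the left, `F` is linear -/
theorem LS.near {F : ℝ → ℝ} {t : ℝ} {m : ℤ} (h : LS F t m) :
    ∃ ε : ℝ, 0 < ε ∧ ∀ y, t - ε < y → y < t → F y = F t + m * (t - y) ∧ LS F y m ∧ RS F y (-m) := by
  obtain ⟨ε, he, h⟩ := h
  refine ⟨ε, he, fun y h1 h2 => ?_⟩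
  have key : ∀ z, t - ε < z → z ≤ t → F z = F t + m * (t - z) := by
    intro z hz hz'
    have := h (t - z) (by linarith) (by linarith)
    simpa using this
  refine ⟨key y h1 h2.le, ⟨y - (t - ε), by linarith, fun s hs hs' => ?_⟩,
    ⟨t - y, by linarith, fun s hs hs' => ?_⟩⟩
  · simp only [sub_zero]
    rw [key (y - s) (by linarith) (by linarith), key y h1 h2.le]
    ring
  · simp only [add_zero]
    rw [key (y + s) (by linarith) (by linarith), key y h1 h2.le]
    push_cast
    ring

/-- `F` is continuous on `[0,1]`. -/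
theorem Good.continuousOn {F : ℝ → ℝ} (h : Good F) : ContinuousOn F (Set.Icc 0 1) := by
  intro t ht
  rw [Metric.continuousWithinAt_iff]
  intro η hη
  have hr : ∃ δ : ℝ, 0 < δ ∧ ∀ y ∈ Set.Icc (0:ℝ) 1, t < y → y < t + δ → |F y - F t| < η := by
    rcases lt_or_ge t 1 with h1 | h1
    · obtain ⟨ε, he, hn⟩ := (h.rs ht.1 h1).near
      refine ⟨min ε (η / (|(R F t : ℝ)| + 1)), lt_min he (by positivity), fun y _ hy hy' => ?_⟩
      have h2 : y - t < η / (|(R F t : ℝ)| + 1) := by
        have := min_le_right ε (η / (|(R F t : ℝ)| + 1)); linarith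
      rw [lt_div_iff₀ (by positivity)] at h2
      have h3 := (hn y hy (by have := min_le_left ε (η / (|(R F t : ℝ)| + 1)); linarith)).1
      rw [h3, add_sub_cancel_left, abs_mul, abs_of_pos (by linarith : 0 < y - t)]
      have h4 : 0 ≤ |(R F t : ℝ)| := abs_nonneg _
      nlinarith
    · exact ⟨1, one_pos, fun y hy hy1 _ => by have := hy.2; linarith⟩
  have hl : ∃ δ : ℝ, 0 < δ ∧ ∀ y ∈ Set.Icc (0:ℝ) 1, t - δ < y → y < t → |F y - F t| < η := by
    rcases lt_or_ge 0 t with h1 | h1
    · obtain ⟨ε, he, hn⟩ := (h.ls h1 ht.2).near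
      refine ⟨min ε (η / (|(L F t : ℝ)| + 1)), lt_min he (by positivity), fun y _ hy hy' => ?_⟩
      have h2 : t - y < η / (|(L F t : ℝ)| + 1) := by
        have := min_le_right ε (η / (|(L F t : ℝ)| + 1)); linarith
      rw [lt_div_iff₀ (by positivity)] at h2
      have h3 := (hn y (by have := min_le_left ε (η / (|(L F t : ℝ)| + 1)); linarith) hy').1
      rw [h3, add_sub_cancel_left, abs_mul, abs_of_pos (by linarith : 0 < t - y)]
      have h4 : 0 ≤ |(L F t : ℝ)| := abs_nonneg _
      nlinarith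
    · exact ⟨1, one_pos, fun y hy _ hy1 => by have := hy.1; linarith⟩
  obtain ⟨δ, hd, hr⟩ := hr
  obtain ⟨δ', hd', hl⟩ := hl
  refine ⟨min δ δ', lt_min hd hd', fun y hy hy' => ?_⟩
  rw [Real.dist_eq] at hy' ⊢
  have h5 := abs_lt.1 hy'
  have h6 := min_le_left δ δ'
  have h7 := min_le_right δ δ'
  rcases lt_trichotomy y t with h8 | h8 | h8
  · exact hl y hy (by linarith) h8
  · rw [h8]; simpa using hη
  · exact hr y hy h8 (by linarith)

/-- the interior points where the slope changes -/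
def brk (F : ℝ → ℝ) : Set ℝ := {t | 0 < t ∧ t < 1 ∧ R F t + L F t ≠ 0}

theorem brk_right {F : ℝ → ℝ} (h : Good F) {t : ℝ} (h0 : 0 ≤ t) (h1 : t < 1) :
    ∃ ε : ℝ, 0 < ε ∧ ∀ y, t < y → y < t + ε → R F y = R F t ∧ L F y = - R F t ∧ y ∉ brk F := by
  obtain ⟨ε, he, hn⟩ := (h.rs h0 h1).near
  refine ⟨ε, he, fun y hy hy' => ?_⟩
  obtain ⟨-, h2, h3⟩ := hn y hy hy'
  refine ⟨R_eq h2, L_eq h3, fun h4 => h4.2.2 ?_⟩
  rw [R_eq h2, L_eq h3]; ring

theorem brk_left {F : ℝ → ℝ} (h : Good F) {t : ℝ} (h0 : 0 < t) (h1 : t ≤ 1) :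
    ∃ ε : ℝ, 0 < ε ∧ ∀ y, t - ε < y → y < t → R F y = - L F t ∧ L F y = L F t ∧ y ∉ brk F := by
  obtain ⟨ε, he, hn⟩ := (h.ls h0 h1).near
  refine ⟨ε, he, fun y hy hy' => ?_⟩
  obtain ⟨-, h2, h3⟩ := hn y hy hy'
  refine ⟨R_eq h3, L_eq h2, fun h4 => h4.2.2 ?_⟩
  rw [R_eq h3, L_eq h2]; ring

theorem brk_finite {F : ℝ → ℝ} (h : Good F) : (brk F).Finite := by
  by_contra hinf
  have hinf' : (brk F).Infinite := hinf
  obtain ⟨x, hx, hacc⟩ := hinf'.exists_accPt_of_subset_isCompact (isCompact_Icc (a := (0:ℝ)) (b := 1))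
    (fun t ht => ⟨ht.1.le, ht.2.1.le⟩)
  have hr : ∃ ε : ℝ, 0 < ε ∧ ∀ y, x < y → y < x + ε → y ∉ brk F := by
    rcases lt_or_ge x 1 with h1 | h1
    · obtain ⟨ε, he, hn⟩ := brk_right h hx.1 h1
      exact ⟨ε, he, fun y hy hy' => (hn y hy hy').2.2⟩
    · exact ⟨1, one_pos, fun y hy _ hb => by have := hb.2.1; linarith⟩
  have hl : ∃ ε : ℝ, 0 < ε ∧ ∀ y, x - ε < y → y < x → y ∉ brk F := by
    rcases lt_or_ge 0 x with h1 | h1
    · obtain ⟨ε, he, hn⟩ := brk_left h h1 hx.2
      exact ⟨ε, he, fun y hy hy' => (hn y hy hy').2.2⟩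
    · exact ⟨1, one_pos, fun y _ hy hb => by have := hb.1; linarith⟩
  obtain ⟨ε, he, hr⟩ := hr
  obtain ⟨δ, hd, hl⟩ := hl
  rw [accPt_iff_frequently] at hacc
  apply hacc
  have : ∀ᶠ y in nhds x, x - δ < y ∧ y < x + ε :=
    (eventually_gt_nhds (by linarith)).and (eventually_lt_nhds (by linarith))
  filter_upwards [this] with y hy
  rintro ⟨hne, hb⟩
  rcases lt_or_gt_of_ne hne with h8 | h8
  · exact hl y hy.1 h8 hb
  · exact hr y h8 hy.2 hb

/-- **Balance on one edge**: the slope changes add up. -/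
theorem brk_sum {F : ℝ → ℝ} (h : Good F) (B : Finset ℝ) (hB : ∀ t, t ∈ B ↔ t ∈ brk F) :
    ∑ t ∈ B, (R F t + L F t) = - R F 0 - L F 1 := by
  classical
  set J : ℝ → ℤ := fun y => ∑ t ∈ B.filter (fun t => t ≤ y), (R F t + L F t) with hJ
  set g : ℝ → ℤ := fun y => R F y - J y with hg
  have hcont : ContinuousOn g (Set.Ioo 0 1) := by
    intro t ht
    apply ContinuousAt.continuousWithinAt
    obtain ⟨ε, he, hr⟩ := brk_right h ht.1.le ht.2
    obtain ⟨δ, hd, hl⟩ := brk_left h ht.1 ht.2.le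
    have hev : ∀ᶠ y in nhds t, g y = g t := by
      have : ∀ᶠ y in nhds t, t - δ < y ∧ y < t + ε :=
        (eventually_gt_nhds (by linarith)).and (eventually_lt_nhds (by linarith))
      filter_upwards [this] with y hy
      rcases lt_trichotomy y t with h8 | h8 | h8
      · obtain ⟨h9, -, -⟩ := hl y hy.1 h8
        have h10 : J t = J y + (R F t + L F t) := by
          simp only [hJ]
          by_cases htB : t ∈ B
          · have : B.filter (fun b => b ≤ t) = insert t (B.filter (fun b => b ≤ y)) := by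
              ext b
              simp only [Finset.mem_filter, Finset.mem_insert]
              constructor
              · rintro ⟨h11, h12⟩
                rcases eq_or_lt_of_le h12 with h13 | h13
                · exact Or.inl h13
                · refine Or.inr ⟨h11, ?_⟩
                  by_contra h14
                  push Not at h14
                  exact (hl b (by linarith [hy.1]) h13).2.2 ((hB b).1 h11)
              · rintro (h11 | h11)
                · exact ⟨h11 ▸ htB, h11.le⟩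
                · exact ⟨h11.1, by linarith [h11.2]⟩
            rw [this, Finset.sum_insert (by simp [h8])]
            ring
          · have h11 : R F t + L F t = 0 := by
              by_contra h12
              exact htB ((hB t).2 ⟨ht.1, ht.2, h12⟩)
            rw [h11, add_zero]
            congr 1
            ext b
            simp only [Finset.mem_filter]
            constructor
            · rintro ⟨h12, h13⟩
              refine ⟨h12, ?_⟩
              by_contra h14
              push Not at h14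
              rcases eq_or_lt_of_le h13 with h15 | h15
              · exact htB (h15 ▸ h12)
              · exact (hl b (by linarith [hy.1]) h15).2.2 ((hB b).1 h12)
            · rintro ⟨h12, h13⟩
              exact ⟨h12, by linarith⟩
        simp only [hg]
        rw [h9, h10]
        ring
      · rw [h8]
      · obtain ⟨h9, -, -⟩ := hr y h8 hy.2
        have h10 : J y = J t := by
          simp only [hJ]
          congr 1
          ext b
          simp only [Finset.mem_filter]
          constructor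
          · rintro ⟨h12, h13⟩
            refine ⟨h12, ?_⟩
            by_contra h14
            push Not at h14
            exact (hr b h14 (by linarith [hy.2])).2.2 ((hB b).1 h12)
          · rintro ⟨h12, h13⟩
            exact ⟨h12, by linarith⟩
        simp only [hg]
        rw [h9, h10]
    exact (continuousAt_const (y := g t)).congr (hev.mono fun y hy => hy.symm)
  obtain ⟨ε, he, hr⟩ := brk_right h le_rfl (zero_lt_one)
  obtain ⟨δ, hd, hl⟩ := brk_left h zero_lt_one le_rfl
  have hconst := isPreconnected_Ioo (a := (0:ℝ)) (b := 1) |>.constant hcont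
    (x := min ε 1 / 2) (y := 1 - min δ 1 / 2)
    ⟨by positivity, by have := min_le_right ε 1; linarith⟩
    ⟨by have := min_le_right δ 1; linarith, by
      have : 0 < min δ 1 := lt_min hd one_pos
      linarith⟩
  have e1 : g (min ε 1 / 2) = R F 0 := by
    have hp : 0 < min ε 1 := lt_min he one_pos
    have h1 := hr (min ε 1 / 2) (by positivity) (by have := min_le_left ε 1; linarith)
    have h2 : J (min ε 1 / 2) = 0 := by
      simp only [hJ]
      apply Finset.sum_eq_zero
      intro b hb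
      rw [Finset.mem_filter] at hb
      exact absurd ((hB b).1 hb.1) (hr b ((hB b).1 hb.1).1 (by
        have := min_le_left ε 1; linarith [hb.2])).2.2
    simp only [hg]
    rw [h1.1, h2, sub_zero]
  have e2 : g (1 - min δ 1 / 2) = - L F 1 - ∑ t ∈ B, (R F t + L F t) := by
    have hp : 0 < min δ 1 := lt_min hd one_pos
    have h1 := hl (1 - min δ 1 / 2) (by have := min_le_left δ 1; linarith) (by linarith)
    have h2 : J (1 - min δ 1 / 2) = ∑ t ∈ B, (R F t + L F t) := by
      simp only [hJ]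
      congr 1
      ext b
      simp only [Finset.mem_filter, and_iff_left_iff_imp]
      intro hb
      by_contra h14
      push Not at h14
      exact (hl b (by have := min_le_left δ 1; linarith) ((hB b).1 hb).2.1).2.2 ((hB b).1 hb)
    simp only [hg]
    rw [h1.1, h2]
  rw [e1, e2] at hconst
  linarith

end Pool.Agent.X71.MG
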