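import Pool.Agent.X71.MG.Germ

set_option autoImplicit false
set_option linter.unusedSectionVars false
set_option linter.unusedSimpArgs false

/-! Divisors on a multigraph and on its metric graph. -/

namespace Pool.Agent.X71.MG

/-- A loopless multigraph with vertex type `V` and edge type `E`: every edge has two distinct ends
(listed in an arbitrary order); parallel edges are allowed. -/
structure MGraph (V E : Type) where
  /-- first end of an edge -/
  src : E → V
  /-- second end of an edge -/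
  tgt : E → V
  ne : ∀ e, src e ≠ tgt e

/-- The points of the metric graph in which every edge is a segment of length `1`: the vertices, and
for every edge `e` the interior points `(e, t)`, `0 < t < 1`, at distance `t` from the first end. -/
abbrev Pt (V E : Type) : Type := V ⊕ (E × Set.Ioo (0 : ℝ) 1)

/-- The segment `[0,1] → Γ` of the edge `e`: the point of `e` at distance `t` from the first end. -/
noncomputable def MGraph.pt {V E : Type} (G : MGraph V E) (e : E) (t : ℝ) : Pt V E :=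
  if h : 0 < t ∧ t < 1 then Sum.inr (e, ⟨t, h⟩) else if t ≤ 0 then Sum.inl (G.src e)
  else Sum.inl (G.tgt e)

/-- The restriction of a function on the metric graph to the segment of the edge `e`. -/
noncomputable def MGraph.on {V E : Type} (G : MGraph V E) (f : Pt V E → ℝ) (e : E) : ℝ → ℝ :=
  fun t => f (G.pt e t)

/-- Rational functions. -/
def MGraph.IsRat {V E : Type} (G : MGraph V E) (f : Pt V E → ℝ) : Prop := ∀ e, Good (G.on f e)

variable {V E : Type} [Fintype V] [Fintype E] [DecidableEq V] [DecidableEq E]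

/-- The divisor of `f`: the sum of the outgoing slopes. -/
noncomputable def MGraph.div (G : MGraph V E) (f : Pt V E → ℝ) : Pt V E → ℤ
  | Sum.inl v => ∑ e : E, ((if G.src e = v then R (G.on f e) 0 else 0) +
      (if G.tgt e = v then L (G.on f e) 1 else 0))
  | Sum.inr (e, t) => R (G.on f e) t + L (G.on f e) t

/-- Degree of a divisor on the metric graph. -/
def mdeg {V E : Type} (D : Pt V E →₀ ℤ) : ℤ := D.sum fun _ n => n

/-- Linear equivalence of divisors on the metric graph. -/
def MGraph.MEquiv (G : MGraph V E) (D D' : Pt V E →₀ ℤ) : Prop :=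
  ∃ f : Pt V E → ℝ, G.IsRat f ∧ ∀ x, D' x = D x + G.div f x

omit [Fintype V] [Fintype E] [DecidableEq V] [DecidableEq E] in
@[simp] theorem MGraph.pt_zero (G : MGraph V E) (e : E) : G.pt e 0 = Sum.inl (G.src e) := by
  simp [MGraph.pt]

omit [Fintype V] [Fintype E] [DecidableEq V] [DecidableEq E] in
@[simp] theorem MGraph.pt_one (G : MGraph V E) (e : E) : G.pt e 1 = Sum.inl (G.tgt e) := by
  simp [MGraph.pt]

omit [Fintype V] [Fintype E] [DecidableEq V] [DecidableEq E] in
theorem MGraph.pt_mid (G : MGraph V E) (e : E) {t : ℝ} (h : 0 < t ∧ t < 1) :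
    G.pt e t = Sum.inr (e, ⟨t, h⟩) := by
  simp [MGraph.pt, h]

omit [Fintype V] [Fintype E] [DecidableEq V] [DecidableEq E] in
theorem MGraph.on_mid (G : MGraph V E) (f : Pt V E → ℝ) (e : E) (t : Set.Ioo (0:ℝ) 1) :
    G.on f e t = f (Sum.inr (e, t)) := by
  unfold MGraph.on
  rw [G.pt_mid e t.2]

omit [Fintype V] [Fintype E] [DecidableEq V] [DecidableEq E] in
@[simp] theorem MGraph.on_zero (G : MGraph V E) (f : Pt V E → ℝ) (e : E) :
    G.on f e 0 = f (Sum.inl (G.src e)) := by
  unfold MGraph.on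
  rw [G.pt_zero e]

omit [Fintype V] [Fintype E] [DecidableEq V] [DecidableEq E] in
@[simp] theorem MGraph.on_one (G : MGraph V E) (f : Pt V E → ℝ) (e : E) :
    G.on f e 1 = f (Sum.inl (G.tgt e)) := by
  unfold MGraph.on
  rw [G.pt_one e]

/-- the vertex or edge of a point -/
def cls {V E : Type} : Pt V E → V ⊕ E
  | Sum.inl v => Sum.inl v
  | Sum.inr (e, _) => Sum.inr e

/-- the number of chips in the interior of an edge -/
def inner (D : Pt V E →₀ ℤ) (e : E) : ℤ :=
  ∑ x ∈ D.support.filter (fun x => cls x = Sum.inr e), D x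

theorem mdeg_eq (D : Pt V E →₀ ℤ) : mdeg D = ∑ v, D (Sum.inl v) + ∑ e, inner D e := by
  classical
  unfold mdeg Finsupp.sum
  rw [← Finset.sum_fiberwise D.support cls, Fintype.sum_sum_type]
  congr 1
  apply Finset.sum_congr rfl
  intro v _
  by_cases h : D (Sum.inl v) = 0
  · rw [h]
    apply Finset.sum_eq_zero
    intro x hx
    rw [Finset.mem_filter] at hx
    obtain ⟨hx1, hx2⟩ := hx
    rcases x with w | ⟨e, t⟩
    · simp only [cls, Sum.inl.injEq] at hx2
      rw [hx2, h]
    · simp [cls] at hx2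
  · rw [Finset.sum_eq_single (Sum.inl v)]
    · intro x hx hne
      rw [Finset.mem_filter] at hx
      rcases x with w | ⟨e, t⟩
      · simp only [cls, Sum.inl.injEq] at hx
        exact absurd (by rw [hx.2]) hne
      · simp [cls] at hx
    · intro hn
      exfalso
      apply hn
      rw [Finset.mem_filter, Finsupp.mem_support_iff]
      exact ⟨h, rfl⟩

omit [Fintype V] [Fintype E] [DecidableEq V] [DecidableEq E] in
theorem mdeg_add (D D' : Pt V E →₀ ℤ) : mdeg (D + D') = mdeg D + mdeg D' := by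
  classical
  unfold mdeg
  exact Finsupp.sum_add_index' (by simp) (by simp)

theorem div_support_finite (G : MGraph V E) {f : Pt V E → ℝ} (hf : G.IsRat f) :
    (Function.support (G.div f)).Finite := by
  classical
  apply Set.Finite.subset (s := (Set.range (Sum.inl : V → Pt V E)) ∪
    ⋃ e : E, (G.pt e) '' (brk (G.on f e)))
  · apply Set.Finite.union (Set.finite_range _)
    apply Set.finite_iUnion
    intro e
    exact (brk_finite (hf e)).image _
  · intro x hx
    rcases x with v | ⟨e, t⟩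
    · exact Or.inl ⟨v, rfl⟩
    · refine Or.inr (Set.mem_iUnion.2 ⟨e, t, ⟨t.2.1, t.2.2, hx⟩, ?_⟩)
      rw [G.pt_mid e t.2]

/-- the divisor of a rational function, as a finitely supported function -/
noncomputable def MGraph.divF (G : MGraph V E) (f : Pt V E → ℝ) (hf : G.IsRat f) : Pt V E →₀ ℤ :=
  Finsupp.ofSupportFinite (G.div f) (div_support_finite G hf)

theorem divF_apply (G : MGraph V E) {f : Pt V E → ℝ} (hf : G.IsRat f) (x : Pt V E) :
    G.divF f hf x = G.div f x := rfl

theorem inner_divF (G : MGraph V E) {f : Pt V E → ℝ} (hf : G.IsRat f) (e : E) :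
    inner (G.divF f hf) e = - R (G.on f e) 0 - L (G.on f e) 1 := by
  classical
  set B := (brk_finite (hf e)).toFinset with hB
  rw [← brk_sum (hf e) B (fun t => by rw [hB, Set.Finite.mem_toFinset])]
  unfold inner
  have hset : (G.divF f hf).support.filter (fun x => cls x = Sum.inr e) = B.image (G.pt e) := by
    ext x
    simp only [Finset.mem_filter, Finsupp.mem_support_iff, Finset.mem_image, divF_apply]
    constructor
    · rintro ⟨h1, h2⟩
      rcases x with v | ⟨e', t⟩
      · simp [cls] at h2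
      · simp only [cls, Sum.inr.injEq] at h2
        subst h2
        refine ⟨t, ?_, G.pt_mid _ t.2⟩
        rw [hB, Set.Finite.mem_toFinset]
        exact ⟨t.2.1, t.2.2, h1⟩
    · rintro ⟨t, ht, rfl⟩
      rw [hB, Set.Finite.mem_toFinset] at ht
      rw [G.pt_mid e ⟨ht.1, ht.2.1⟩]
      exact ⟨ht.2.2, rfl⟩
  rw [hset, Finset.sum_image]
  · apply Finset.sum_congr rfl
    intro t ht
    rw [hB, Set.Finite.mem_toFinset] at ht
    rw [divF_apply, G.pt_mid e ⟨ht.1, ht.2.1⟩]
    rfl
  · intro t ht t' ht' h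
    rw [hB, Set.Finite.coe_toFinset] at ht ht'
    rw [G.pt_mid e ⟨ht.1, ht.2.1⟩, G.pt_mid e ⟨ht'.1, ht'.2.1⟩] at h
    simp only [Sum.inr.injEq, Prod.mk.injEq, true_and] at h
    exact congrArg Subtype.val h

theorem mdeg_divF (G : MGraph V E) {f : Pt V E → ℝ} (hf : G.IsRat f) : mdeg (G.divF f hf) = 0 := by
  rw [mdeg_eq]
  simp only [inner_divF, divF_apply, MGraph.div]
  rw [Finset.sum_comm, ← Finset.sum_add_distrib]
  apply Finset.sum_eq_zero
  intro e _
  rw [Finset.sum_add_distrib]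
  simp

theorem MEquiv_iff (G : MGraph V E) (D D' : Pt V E →₀ ℤ) :
    G.MEquiv D D' ↔ ∃ (f : Pt V E → ℝ) (hf : G.IsRat f), D' = D + G.divF f hf := by
  constructor
  · rintro ⟨f, hf, h⟩
    exact ⟨f, hf, Finsupp.ext fun x => by rw [Finsupp.add_apply, divF_apply, h x]⟩
  · rintro ⟨f, hf, rfl⟩
    exact ⟨f, hf, fun x => by rw [Finsupp.add_apply, divF_apply]⟩

theorem MEquiv.mdeg (G : MGraph V E) {D D' : Pt V E →₀ ℤ} (h : G.MEquiv D D') :
    mdeg D' = mdeg D := by
  obtain ⟨f, hf, rfl⟩ := (MEquiv_iff G D D').1 h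
  rw [mdeg_add, mdeg_divF, add_zero]

/-! closure properties -/

omit [Fintype V] [Fintype E] [DecidableEq V] [DecidableEq E] in
theorem isRat_zero (G : MGraph V E) : G.IsRat (fun _ => (0:ℝ)) :=
  fun _ => ⟨fun _ _ _ => ⟨0, Germ.const 0⟩, fun _ _ _ => ⟨0, Germ.const 0⟩⟩

theorem div_zero' (G : MGraph V E) (x : Pt V E) : G.div (fun _ => (0:ℝ)) x = 0 := by
  have h1 : ∀ t, R (fun _ : ℝ => (0:ℝ)) t = 0 := fun t => R_eq (Germ.const 0)
  have h2 : ∀ t, L (fun _ : ℝ => (0:ℝ)) t = 0 := fun t => L_eq (Germ.const 0)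
  have h3 : ∀ e : E, G.on (fun _ => (0:ℝ)) e = fun _ => 0 := fun e => rfl
  rcases x with v | ⟨e, t⟩
  · simp [MGraph.div, h3, h1, h2]
  · simp [MGraph.div, h3, h1, h2]

omit [Fintype V] [Fintype E] [DecidableEq V] [DecidableEq E] in
theorem isRat_add (G : MGraph V E) {f g : Pt V E → ℝ} (hf : G.IsRat f) (hg : G.IsRat g) :
    G.IsRat (fun x => f x + g x) := fun e =>
  ⟨fun _ h0 h1 => ⟨_, ((hf e).rs h0 h1).add ((hg e).rs h0 h1)⟩,
    fun _ h0 h1 => ⟨_, ((hf e).ls h0 h1).add ((hg e).ls h0 h1)⟩⟩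

omit [Fintype V] [Fintype E] [DecidableEq V] [DecidableEq E] in
theorem isRat_neg (G : MGraph V E) {f : Pt V E → ℝ} (hf : G.IsRat f) :
    G.IsRat (fun x => - f x) := fun e =>
  ⟨fun _ h0 h1 => ⟨_, ((hf e).rs h0 h1).neg⟩, fun _ h0 h1 => ⟨_, ((hf e).ls h0 h1).neg⟩⟩

theorem R_add {F H : ℝ → ℝ} (hF : Good F) (hH : Good H) {t : ℝ} (h0 : 0 ≤ t) (h1 : t < 1) :
    R (fun t => F t + H t) t = R F t + R H t := R_eq ((hF.rs h0 h1).add (hH.rs h0 h1))

theorem L_add {F H : ℝ → ℝ} (hF : Good F) (hH : Good H) {t : ℝ} (h0 : 0 < t) (h1 : t ≤ 1) :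
    L (fun t => F t + H t) t = L F t + L H t := L_eq ((hF.ls h0 h1).add (hH.ls h0 h1))

theorem R_neg {F : ℝ → ℝ} (hF : Good F) {t : ℝ} (h0 : 0 ≤ t) (h1 : t < 1) :
    R (fun t => - F t) t = - R F t := R_eq ((hF.rs h0 h1).neg)

theorem L_neg {F : ℝ → ℝ} (hF : Good F) {t : ℝ} (h0 : 0 < t) (h1 : t ≤ 1) :
    L (fun t => - F t) t = - L F t := L_eq ((hF.ls h0 h1).neg)

theorem div_add (G : MGraph V E) {f g : Pt V E → ℝ} (hf : G.IsRat f) (hg : G.IsRat g) (x : Pt V E) :
    G.div (fun x => f x + g x) x = G.div f x + G.div g x := by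
  rcases x with v | ⟨e, t⟩
  · simp only [MGraph.div]
    rw [← Finset.sum_add_distrib]
    apply Finset.sum_congr rfl
    intro e _
    have h1 : R (G.on (fun x => f x + g x) e) 0 = R (G.on f e) 0 + R (G.on g e) 0 :=
      R_add (hf e) (hg e) le_rfl zero_lt_one
    have h2 : L (G.on (fun x => f x + g x) e) 1 = L (G.on f e) 1 + L (G.on g e) 1 :=
      L_add (hf e) (hg e) zero_lt_one le_rfl
    rw [h1, h2]
    split_ifs <;> ring
  · simp only [MGraph.div]
    have h1 : R (G.on (fun x => f x + g x) e) t = R (G.on f e) t + R (G.on g e) t :=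
      R_add (hf e) (hg e) t.2.1.le t.2.2
    have h2 : L (G.on (fun x => f x + g x) e) t = L (G.on f e) t + L (G.on g e) t :=
      L_add (hf e) (hg e) t.2.1 t.2.2.le
    rw [h1, h2]
    ring

theorem div_neg (G : MGraph V E) {f : Pt V E → ℝ} (hf : G.IsRat f) (x : Pt V E) :
    G.div (fun x => - f x) x = - G.div f x := by
  rcases x with v | ⟨e, t⟩
  · simp only [MGraph.div]
    rw [← Finset.sum_neg_distrib]
    apply Finset.sum_congr rfl
    intro e _
    have h1 : R (G.on (fun x => - f x) e) 0 = - R (G.on f e) 0 := R_neg (hf e) le_rfl zero_lt_one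
    have h2 : L (G.on (fun x => - f x) e) 1 = - L (G.on f e) 1 := L_neg (hf e) zero_lt_one le_rfl
    rw [h1, h2]
    split_ifs <;> ring
  · simp only [MGraph.div]
    have h1 : R (G.on (fun x => - f x) e) t = - R (G.on f e) t := R_neg (hf e) t.2.1.le t.2.2
    have h2 : L (G.on (fun x => - f x) e) t = - L (G.on f e) t := L_neg (hf e) t.2.1 t.2.2.le
    rw [h1, h2]
    ring

theorem MEquiv.refl (G : MGraph V E) (D : Pt V E →₀ ℤ) : G.MEquiv D D :=
  ⟨fun _ => 0, isRat_zero G, fun x => by rw [div_zero', add_zero]⟩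

theorem MEquiv.symm (G : MGraph V E) {D D' : Pt V E →₀ ℤ} (h : G.MEquiv D D') : G.MEquiv D' D := by
  obtain ⟨f, hf, h⟩ := h
  exact ⟨fun x => - f x, isRat_neg G hf, fun x => by rw [div_neg G hf, h x]; ring⟩

theorem MEquiv.trans (G : MGraph V E) {D D' D'' : Pt V E →₀ ℤ} (h : G.MEquiv D D')
    (h' : G.MEquiv D' D'') : G.MEquiv D D'' := by
  obtain ⟨f, hf, h⟩ := h
  obtain ⟨g, hg, h'⟩ := h'
  exact ⟨fun x => f x + g x, isRat_add G hf hg, fun x => by rw [div_add G hf hg, h' x, h x]; ring⟩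

theorem MEquiv.add (G : MGraph V E) {D D' C C' : Pt V E →₀ ℤ} (h : G.MEquiv D D')
    (h' : G.MEquiv C C') : G.MEquiv (D + C) (D' + C') := by
  obtain ⟨f, hf, h⟩ := h
  obtain ⟨g, hg, h'⟩ := h'
  exact ⟨fun x => f x + g x, isRat_add G hf hg, fun x => by
    rw [div_add G hf hg, Finsupp.add_apply, Finsupp.add_apply, h x, h' x]; ring⟩

theorem MEquiv.add_right (G : MGraph V E) {D D' : Pt V E →₀ ℤ} (h : G.MEquiv D D')
    (C : Pt V E →₀ ℤ) : G.MEquiv (D + C) (D' + C) := MEquiv.add G h (MEquiv.refl G C)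

theorem MEquiv.sub_right (G : MGraph V E) {D D' : Pt V E →₀ ℤ} (h : G.MEquiv D D')
    (C : Pt V E →₀ ℤ) : G.MEquiv (D - C) (D' - C) := by
  rw [sub_eq_add_neg, sub_eq_add_neg]
  exact MEquiv.add_right G h (-C)

/-- truncation from below -/
noncomputable def trunc {V E : Type} (f : Pt V E → ℝ) (c : ℝ) : Pt V E → ℝ := fun x => max (f x) c

theorem R_trunc {F : ℝ → ℝ} (hF : Good F) {t : ℝ} (h0 : 0 ≤ t) (h1 : t < 1) (c : ℝ) :
    RS (fun t => max (F t) c) t
      (if c < F t then R F t else if F t < c then 0 else max (R F t) 0) := by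
  have h := hF.rs h0 h1
  have e0 : (fun s => F (t + s)) 0 = F t := by simp
  split_ifs with h2 h3
  · exact Germ.max_gt h (by simpa using h2)
  · exact Germ.max_lt h (by simpa using h3)
  · exact Germ.max_eq h (by
      have : F t = c := le_antisymm (not_lt.1 h2) (not_lt.1 h3)
      simpa using this)

theorem L_trunc {F : ℝ → ℝ} (hF : Good F) {t : ℝ} (h0 : 0 < t) (h1 : t ≤ 1) (c : ℝ) :
    LS (fun t => max (F t) c) t
      (if c < F t then L F t else if F t < c then 0 else max (L F t) 0) := by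
  have h := hF.ls h0 h1
  split_ifs with h2 h3
  · exact Germ.max_gt h (by simpa using h2)
  · exact Germ.max_lt h (by simpa using h3)
  · exact Germ.max_eq h (by
      have : F t = c := le_antisymm (not_lt.1 h2) (not_lt.1 h3)
      simpa using this)

omit [Fintype V] [Fintype E] [DecidableEq V] [DecidableEq E] in
theorem isRat_trunc (G : MGraph V E) {f : Pt V E → ℝ} (hf : G.IsRat f) (c : ℝ) :
    G.IsRat (trunc f c) := fun e =>
  ⟨fun _ h0 h1 => ⟨_, R_trunc (hf e) h0 h1 c⟩, fun _ h0 h1 => ⟨_, L_trunc (hf e) h0 h1 c⟩⟩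

theorem div_trunc_gt (G : MGraph V E) {f : Pt V E → ℝ} (hf : G.IsRat f) {c : ℝ} {x : Pt V E}
    (h : c < f x) : G.div (trunc f c) x = G.div f x := by
  rcases x with v | ⟨e, t⟩
  · simp only [MGraph.div]
    apply Finset.sum_congr rfl
    intro e _
    congr 1
    · by_cases he : G.src e = v
      · rw [if_pos he, if_pos he]
        have h1 : R (G.on (trunc f c) e) 0 = _ := R_eq (R_trunc (hf e) le_rfl zero_lt_one c)
        rw [h1, if_pos (by rw [G.on_zero, he]; exact h)]
      · rw [if_neg he, if_neg he]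
    · by_cases he : G.tgt e = v
      · rw [if_pos he, if_pos he]
        have h1 : L (G.on (trunc f c) e) 1 = _ := L_eq (L_trunc (hf e) zero_lt_one le_rfl c)
        rw [h1, if_pos (by rw [G.on_one, he]; exact h)]
      · rw [if_neg he, if_neg he]
  · simp only [MGraph.div]
    have h1 : R (G.on (trunc f c) e) t = _ := R_eq (R_trunc (hf e) t.2.1.le t.2.2 c)
    have h2 : L (G.on (trunc f c) e) t = _ := L_eq (L_trunc (hf e) t.2.1 t.2.2.le c)
    rw [h1, h2, if_pos (by rw [G.on_mid]; exact h), if_pos (by rw [G.on_mid]; exact h)]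

theorem div_trunc_lt (G : MGraph V E) {f : Pt V E → ℝ} (hf : G.IsRat f) {c : ℝ} {x : Pt V E}
    (h : f x < c) : G.div (trunc f c) x = 0 := by
  rcases x with v | ⟨e, t⟩
  · simp only [MGraph.div]
    apply Finset.sum_eq_zero
    intro e _
    have h1 : R (G.on (trunc f c) e) 0 = _ := R_eq (R_trunc (hf e) le_rfl zero_lt_one c)
    have h2 : L (G.on (trunc f c) e) 1 = _ := L_eq (L_trunc (hf e) zero_lt_one le_rfl c)
    rw [h1, h2]
    by_cases he : G.src e = v
    · rw [if_pos he, if_neg (by rw [G.on_zero, he]; exact h.not_gt),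
        if_pos (by rw [G.on_zero, he]; exact h)]
      rw [if_neg (fun h3 => G.ne e (he.trans h3.symm)), add_zero]
    · rw [if_neg he, zero_add]
      by_cases he' : G.tgt e = v
      · rw [if_pos he', if_neg (by rw [G.on_one, he']; exact h.not_gt),
          if_pos (by rw [G.on_one, he']; exact h)]
      · rw [if_neg he']
  · simp only [MGraph.div]
    have h1 : R (G.on (trunc f c) e) t = _ := R_eq (R_trunc (hf e) t.2.1.le t.2.2 c)
    have h2 : L (G.on (trunc f c) e) t = _ := L_eq (L_trunc (hf e) t.2.1 t.2.2.le c)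
    rw [h1, h2, if_neg (by rw [G.on_mid]; exact h.not_gt), if_pos (by rw [G.on_mid]; exact h),
      if_neg (by rw [G.on_mid]; exact h.not_gt), if_pos (by rw [G.on_mid]; exact h), add_zero]

theorem div_trunc_eq_mid (G : MGraph V E) {f : Pt V E → ℝ} (hf : G.IsRat f) {c : ℝ} {e : E}
    {t : Set.Ioo (0:ℝ) 1} (h : f (Sum.inr (e, t)) = c) :
    G.div (trunc f c) (Sum.inr (e, t)) = max (R (G.on f e) t) 0 + max (L (G.on f e) t) 0 := by
  simp only [MGraph.div]
  have h1 : R (G.on (trunc f c) e) t = _ := R_eq (R_trunc (hf e) t.2.1.le t.2.2 c)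
  have h2 : L (G.on (trunc f c) e) t = _ := L_eq (L_trunc (hf e) t.2.1 t.2.2.le c)
  have h3 : ¬ (c < G.on f e t) := by rw [G.on_mid, h]; exact lt_irrefl _
  have h4 : ¬ (G.on f e t < c) := by rw [G.on_mid, h]; exact lt_irrefl _
  rw [h1, h2, if_neg h3, if_neg h4, if_neg h3, if_neg h4]

theorem div_trunc_eq (G : MGraph V E) {f : Pt V E → ℝ} (hf : G.IsRat f) {c : ℝ} {x : Pt V E}
    (h : f x = c) : 0 ≤ G.div (trunc f c) x ∧ G.div f x ≤ G.div (trunc f c) x := by
  rcases x with v | ⟨e, t⟩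
  · simp only [MGraph.div]
    have h1 : ∀ e, R (G.on (trunc f c) e) 0 = _ := fun e =>
      R_eq (R_trunc (hf e) le_rfl zero_lt_one c)
    have h2 : ∀ e, L (G.on (trunc f c) e) 1 = _ := fun e =>
      L_eq (L_trunc (hf e) zero_lt_one le_rfl c)
    have key : ∀ e : E, (0:ℤ) ≤ (if G.src e = v then R (G.on (trunc f c) e) 0 else 0) ∧
        (if G.src e = v then R (G.on f e) 0 else 0) ≤
          (if G.src e = v then R (G.on (trunc f c) e) 0 else 0) ∧
        (0:ℤ) ≤ (if G.tgt e = v then L (G.on (trunc f c) e) 1 else 0) ∧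
        (if G.tgt e = v then L (G.on f e) 1 else 0) ≤
          (if G.tgt e = v then L (G.on (trunc f c) e) 1 else 0) := by
      intro e
      rw [h1, h2]
      by_cases he : G.src e = v
      · have h3 : ¬ (c < G.on f e 0) := by rw [G.on_zero, he, h]; exact lt_irrefl _
        have h4 : ¬ (G.on f e 0 < c) := by rw [G.on_zero, he, h]; exact lt_irrefl _
        have h5 : ¬ (G.tgt e = v) := fun h5 => G.ne e (he.trans h5.symm)
        simp only [he, ↓reduceIte, h3, h4, h5]
        refine ⟨le_max_right _ _, le_max_left _ _, le_rfl, le_rfl⟩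
      · by_cases he' : G.tgt e = v
        · have h3 : ¬ (c < G.on f e 1) := by rw [G.on_one, he', h]; exact lt_irrefl _
          have h4 : ¬ (G.on f e 1 < c) := by rw [G.on_one, he', h]; exact lt_irrefl _
          simp only [he, ↓reduceIte, h3, h4, he']
          refine ⟨le_rfl, le_rfl, le_max_right _ _, le_max_left _ _⟩
        · simp [he, he']
    refine ⟨Finset.sum_nonneg fun e _ => add_nonneg (key e).1 (key e).2.2.1,
      Finset.sum_le_sum fun e _ => add_le_add (key e).2.1 (key e).2.2.2⟩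
  · rw [div_trunc_eq_mid G hf h]
    simp only [MGraph.div]
    exact ⟨add_nonneg (le_max_right _ _) (le_max_right _ _),
      add_le_add (le_max_left _ _) (le_max_left _ _)⟩

/-- truncation keeps effectiveness -/
theorem trunc_nonneg (G : MGraph V E) {f : Pt V E → ℝ} (hf : G.IsRat f) (c : ℝ)
    {D : Pt V E →₀ ℤ} (hD : ∀ x, 0 ≤ D x) (hD' : ∀ x, 0 ≤ D x + G.div f x) (x : Pt V E) :
    0 ≤ D x + G.div (trunc f c) x := by
  rcases lt_trichotomy (f x) c with h | h | h
  · rw [div_trunc_lt G hf h, add_zero]; exact hD x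
  · have := (div_trunc_eq G hf h).1
    have := hD x
    linarith
  · rw [div_trunc_gt G hf h]; exact hD' x

end Pool.Agent.X71.MG
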